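import Pool.Agent.Y139.PD.N

/-!
Project JL (helper139): the inequalities of Y139/PD with test functions that vary with the
semiclassical parameter.
-/

set_option autoImplicit false
open MeasureTheory Filter Topology Complex
open scoped ContDiff ENNReal

namespace Pool.Agent.Y139.JL

open Pool.Agent.W745.RW Pool.Agent.TH294.RS Pool.Agent.TH421.AC Pool.Agent.Y139.PD

noncomputable section

variable {B : Set ℂ}

/-- admissible test functions: `|h ∇ φ| ≤ η M` -/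
structure Adm (B S : Set ℂ) (h η M : ℝ) (φ : ℂ → ℝ) : Prop where
  hp : 0 < h
  hη : h ≤ η
  tf : TF B φ
  pos : ∀ z, 0 ≤ φ z
  sp : tsupport φ ⊆ S
  bd : ∀ z ∈ S, |φ z| ≤ M
  d1 : ∀ z ∈ S, |d h 1 φ z| ≤ η * M
  dI : ∀ z ∈ S, |d h I φ z| ≤ η * M

/-- the first energy inequality -/
theorem L1 (hB : IsOpen B) {S : Set ℂ} (hSc : IsCompact S) (hSB : S ⊆ B) {ρ : ℂ → ℝ} {M : ℝ}
    (M1 : 1 ≤ M) (hρ : ContDiffOn ℝ ∞ ρ B) : ∃ K : ℝ, 0 ≤ K ∧ ∀ (h η : ℝ) (φ u : ℂ → ℝ),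
    Adm B S h η M φ → Sol B h ρ u →
      ∫ z, φ z * (d h 1 u z ^ 2 + d h I u z ^ 2) ≤
        (∫ z, φ z * (ρ z * u z ^ 2)) + η * K * ∫ z in S, e2 h u z := by
  refine ⟨M, by linarith, fun h η φ u A hu => ?_⟩
  have hφ := A.tf
  have hφ0 := A.pos
  have z0 : ∀ z, z ∉ S → φ z = 0 := fun z hz => image_eq_zero_of_notMem_tsupport fun h => hz (A.sp h)
  have z1 : ∀ h v z, z ∉ S → d h v φ z = 0 := fun h v z hz => by
    unfold d
    rw [fderiv_of_notMem_tsupport ℝ fun h => hz (A.sp h)]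
    simp
  have cφ : Continuous φ := hφ.1.continuous
  have ηp : 0 < η := A.hp.trans_le A.hη
  have hp := hu.hp
  have s0 := hu.su
  have s1 : ∀ v, ContDiffOn ℝ ∞ (d h v u) B := fun v => d_sm hB s0 h v
  obtain ⟨t1, t2⟩ := T_int hB hφ (s0.mul (s1 1)) h 1
  obtain ⟨t3, t4⟩ := T_int hB hφ (s0.mul (s1 I)) h I
  obtain ⟨iE, eE⟩ := ind_int hSc ((e2_co (h := h) hB s0).mono hSB)
  have iA : Integrable (fun z => φ z * (d h 1 u z ^ 2 + d h I u z ^ 2)) :=
    rint hSc (cφ.continuousOn.mul ((((s1 1).continuousOn.mono hSB).pow 2).add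
      (((s1 I).continuousOn.mono hSB).pow 2))) fun z hz => by rw [z0 z hz, zero_mul]
  have iR : Integrable (fun z => φ z * (ρ z * u z ^ 2)) :=
    rint hSc (cφ.continuousOn.mul ((hρ.continuousOn.mono hSB).mul
      ((s0.continuousOn.mono hSB).pow 2))) fun z hz => by rw [z0 z hz, zero_mul]
  rw [← eE]
  refine mono3 (a := 1) (b := 1) iA iR t1 t3 iE t2 t4 fun z => ?_
  by_cases hzS : z ∈ S
  · have hz := hSB hzS
    have n1 := A.d1 z hzS
    have n2 := A.dI z hzS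
    have f1 := d_mul (rdA hB s0 hz) (rdA hB (s1 1) hz) h 1
    have f2 := d_mul (rdA hB s0 hz) (rdA hB (s1 I) hz) h I
    have q := hu.eq z hz
    rw [Set.indicator_of_mem hzS]
    unfold T
    rw [f1, f2]
    unfold e2
    beta_reduce
    generalize d h 1 (d h 1 u) z = Y1 at *
    generalize d h I (d h I u) z = Y2 at *
    generalize d h I (d h 1 u) z = Z at *
    generalize d h 1 u z = W1 at *
    generalize d h I u z = W2 at *
    generalize u z = U at *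
    generalize d h 1 φ z = a1 at *
    generalize d h I φ z = a2 at *
    generalize hf : φ z = f at *
    have f0 : 0 ≤ f := by rw [← hf]; exact hφ0 z
    have y2 : Y2 = -(ρ z * U) - Y1 := by linarith
    have A1 : |a1 * (U * W1)| ≤ (η * M) * ((U ^ 2 + W1 ^ 2) / 2) := by
      rw [abs_mul]
      refine mul_le_mul n1 ?_ (abs_nonneg _) (by positivity)
      rw [abs_mul, ← sq_abs U, ← sq_abs W1]
      nlinarith [sq_nonneg (|U| - |W1|)]
    have A2 : |a2 * (U * W2)| ≤ (η * M) * ((U ^ 2 + W2 ^ 2) / 2) := by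
      rw [abs_mul]
      refine mul_le_mul n2 ?_ (abs_nonneg _) (by positivity)
      rw [abs_mul, ← sq_abs U, ← sq_abs W2]
      nlinarith [sq_nonneg (|U| - |W2|)]
    have A3 := neg_abs_le (a1 * (U * W1))
    have A4 := neg_abs_le (a2 * (U * W2))
    have hM0 : 0 ≤ η * M := by positivity
    have A5 : 0 ≤ (η * M) * (W1 ^ 2 / 2 + W2 ^ 2 / 2 + Y1 ^ 2 + Y2 ^ 2 + Z ^ 2) := by positivity
    have e1 : f * (W1 ^ 2 + W2 ^ 2) = f * (ρ z * U ^ 2) +
        1 * (f * (W1 * W1 + U * Y1) + a1 * (U * W1)) +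
        1 * (f * (W2 * W2 + U * Y2) + a2 * (U * W2)) - a1 * (U * W1) - a2 * (U * W2) := by
      rw [y2]; ring
    rw [e1]
    have e3 : η * M * (U ^ 2 + W1 ^ 2 + W2 ^ 2 + Y1 ^ 2 + Y2 ^ 2 + Z ^ 2) =
        (η * M) * ((U ^ 2 + W1 ^ 2) / 2) + (η * M) * ((U ^ 2 + W2 ^ 2) / 2) +
        (η * M) * (W1 ^ 2 / 2 + W2 ^ 2 / 2 + Y1 ^ 2 + Y2 ^ 2 + Z ^ 2) := by ring
    rw [e3]
    linarith
  · unfold T
    rw [z0 z hzS, z1 h 1 z hzS, z1 h I z hzS, Set.indicator_of_notMem hzS]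
    simp

/-- the second energy inequality -/
theorem L2 (hB : IsOpen B) {S : Set ℂ} (hSc : IsCompact S) (hSB : S ⊆ B) {ρ : ℂ → ℝ} {M0 : ℝ}
    (hρ : ContDiffOn ℝ ∞ ρ B) (ρ0 : ∀ z ∈ B, 0 < ρ z) :
    ∃ K : ℝ, 0 ≤ K ∧ ∀ (h η : ℝ) (φ u : ℂ → ℝ), Adm B S h η M0 φ → Sol B h ρ u →
      ∫ z, φ z * ((ρ z)⁻¹ * (d h 1 (d h 1 u) z ^ 2 + d h I (d h I u) z ^ 2)) ≤
        (∫ z, φ z * (ρ z * u z ^ 2)) + η * K * ∫ z in S, e2 h u z := by
  obtain ⟨R, hR⟩ : ∃ R : ℂ → ℝ, R = fun z => (ρ z)⁻¹ := ⟨_, rfl⟩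
  have sR : ContDiffOn ℝ ∞ R B := by rw [hR]; exact hρ.inv fun z hz => (ρ0 z hz).ne'
  have Rρ : ∀ z ∈ B, R z * ρ z = 1 := fun z hz => by
    rw [hR]; exact inv_mul_cancel₀ (ρ0 z hz).ne'
  have R0 : ∀ z ∈ B, 0 < R z := fun z hz => by rw [hR]; exact inv_pos.2 (ρ0 z hz)
  obtain ⟨M, M1, hM⟩ := bds hSc [fun _ => M0, R,
    fun z => fderiv ℝ R z 1, fun z => fderiv ℝ R z I] (by
    simp only [List.mem_cons, List.not_mem_nil, or_false, forall_eq_or_imp, forall_eq]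
    exact ⟨continuousOn_const, sR.continuousOn.mono hSB,
      (rsd hB sR 1).continuousOn.mono hSB, (rsd hB sR I).continuousOn.mono hSB⟩)
  simp only [List.mem_cons, List.not_mem_nil, or_false, forall_eq_or_imp, forall_eq] at hM
  refine ⟨4 * M ^ 2, by positivity, fun h η φ u A hu => ?_⟩
  have hφ := A.tf
  have hφ0 := A.pos
  have z0 : ∀ z, z ∉ S → φ z = 0 := fun z hz => image_eq_zero_of_notMem_tsupport fun h => hz (A.sp h)
  have z1 : ∀ h v z, z ∉ S → d h v φ z = 0 := fun h v z hz => by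
    unfold d
    rw [fderiv_of_notMem_tsupport ℝ fun h => hz (A.sp h)]
    simp
  have cφ : Continuous φ := hφ.1.continuous
  have ηp : 0 < η := A.hp.trans_le A.hη
  have hp := hu.hp
  have s0 := hu.su
  have s1 : ∀ v, ContDiffOn ℝ ∞ (d h v u) B := fun v => d_sm hB s0 h v
  have s2 : ∀ v w, ContDiffOn ℝ ∞ (d h w (d h v u)) B := fun v w => d_sm hB (s1 v) h w
  obtain ⟨t1, t2⟩ := T_int hB hφ (sR.mul ((s1 1).mul (s2 I I))) h 1
  obtain ⟨t3, t4⟩ := T_int hB hφ (sR.mul ((s1 1).mul (s2 1 I))) h I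
  obtain ⟨iE, eE⟩ := ind_int hSc ((e2_co (h := h) hB s0).mono hSB)
  have iA : Integrable (fun z => φ z * (R z * (d h 1 (d h 1 u) z ^ 2 +
      d h I (d h I u) z ^ 2))) :=
    rint hSc (cφ.continuousOn.mul ((sR.continuousOn.mono hSB).mul
      ((((s2 1 1).continuousOn.mono hSB).pow 2).add
      (((s2 I I).continuousOn.mono hSB).pow 2)))) fun z hz => by rw [z0 z hz, zero_mul]
  have iR : Integrable (fun z => φ z * (ρ z * u z ^ 2)) :=
    rint hSc (cφ.continuousOn.mul ((hρ.continuousOn.mono hSB).mul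
      ((s0.continuousOn.mono hSB).pow 2))) fun z hz => by rw [z0 z hz, zero_mul]
  have eA : (fun z => φ z * ((ρ z)⁻¹ * (d h 1 (d h 1 u) z ^ 2 + d h I (d h I u) z ^ 2))) =
      fun z => φ z * (R z * (d h 1 (d h 1 u) z ^ 2 + d h I (d h I u) z ^ 2)) := by rw [hR]
  rw [eA, ← eE]
  refine mono3 (a := -2) (b := 2) iA iR t1 t3 iE t2 t4 fun z => ?_
  by_cases hzS : z ∈ S
  · have hz := hSB hzS
    obtain ⟨m0, m4, m5, m6⟩ := hM
    have MM : M0 ≤ M := (le_abs_self _).trans (m0 z hzS)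
    have n1 := (A.d1 z hzS).trans (mul_le_mul_of_nonneg_left MM ηp.le)
    have n2 := (A.dI z hzS).trans (mul_le_mul_of_nonneg_left MM ηp.le)
    have n5 := (absd (h := h) hp (m5 z hzS)).trans (mul_le_mul_of_nonneg_right A.hη (by linarith))
    have n6 := (absd (h := h) hp (m6 z hzS)).trans (mul_le_mul_of_nonneg_right A.hη (by linarith))
    have n3 := (A.bd z hzS).trans MM
    have n4 := m4 z hzS
    have f1 := d_mul (rdA hB sR hz) (rdA hB ((s1 1).mul (s2 I I)) hz) h 1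
    have f2 := d_mul (rdA hB sR hz) (rdA hB ((s1 1).mul (s2 1 I)) hz) h I
    have f3 := d_mul (rdA hB (s1 1) hz) (rdA hB (s2 I I) hz) h 1
    have f4 := d_mul (rdA hB (s1 1) hz) (rdA hB (s2 1 I) hz) h I
    have cm : d h 1 (d h I (d h I u)) z = d h I (d h I (d h 1 u)) z := by
      rw [d_comm hB (s1 I) hz h]
      have e1 : d h 1 (d h I u) =ᶠ[𝓝 z] d h I (d h 1 u) := by
        filter_upwards [hB.mem_nhds hz] with w hw
        exact d_comm hB s0 hw h
      show h * fderiv ℝ (d h 1 (d h I u)) z I = h * fderiv ℝ (d h I (d h 1 u)) z I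
      rw [e1.fderiv_eq]
    have q := hu.eq z hz
    have Rz := Rρ z hz
    have R0z := R0 z hz
    rw [Set.indicator_of_mem hzS]
    unfold T
    rw [f1, f2, f3, f4, cm]
    unfold e2
    beta_reduce
    generalize d h I (d h I (d h 1 u)) z = X at *
    generalize d h 1 (d h 1 u) z = Y1 at *
    generalize d h I (d h I u) z = Y2 at *
    generalize d h I (d h 1 u) z = Z at *
    generalize d h 1 u z = W1 at *
    generalize d h I u z = W2 at *
    generalize u z = U at *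
    generalize d h 1 φ z = a1 at *
    generalize d h I φ z = a2 at *
    generalize d h 1 R z = b1 at *
    generalize d h I R z = b2 at *
    generalize R z = r at *
    generalize hf : φ z = f at *
    have f0 : 0 ≤ f := by rw [← hf]; exact hφ0 z
    have br1 : |f * b1 + a1 * r| ≤ 2 * (η * M ^ 2) := by
      refine (abs_add_le _ _).trans ?_
      rw [abs_mul, abs_mul]
      have := mul_le_mul n3 n5 (abs_nonneg _) (by positivity)
      have := mul_le_mul n1 n4 (abs_nonneg _) (by positivity)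
      nlinarith
    have br2 : |f * b2 + a2 * r| ≤ 2 * (η * M ^ 2) := by
      refine (abs_add_le _ _).trans ?_
      rw [abs_mul, abs_mul]
      have := mul_le_mul n3 n6 (abs_nonneg _) (by positivity)
      have := mul_le_mul n2 n4 (abs_nonneg _) (by positivity)
      nlinarith
    have hM0 : 0 ≤ η * M ^ 2 := by positivity
    have A1 : |(f * b1 + a1 * r) * (W1 * Y2)| ≤ (2 * (η * M ^ 2)) * ((W1 ^ 2 + Y2 ^ 2) / 2) := by
      rw [abs_mul]
      refine mul_le_mul br1 ?_ (abs_nonneg _) (by positivity)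
      rw [abs_mul, ← sq_abs Y2, ← sq_abs W1]
      nlinarith [sq_nonneg (|W1| - |Y2|)]
    have A2 : |(f * b2 + a2 * r) * (W1 * Z)| ≤ (2 * (η * M ^ 2)) * ((W1 ^ 2 + Z ^ 2) / 2) := by
      rw [abs_mul]
      refine mul_le_mul br2 ?_ (abs_nonneg _) (by positivity)
      rw [abs_mul, ← sq_abs Z, ← sq_abs W1]
      nlinarith [sq_nonneg (|W1| - |Z|)]
    have A3 := le_abs_self ((f * b1 + a1 * r) * (W1 * Y2))
    have A4 := neg_abs_le ((f * b2 + a2 * r) * (W1 * Z))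
    have A5 : 0 ≤ (η * M ^ 2) * (4 * U ^ 2 + 4 * W2 ^ 2 + 4 * Y1 ^ 2 + 2 * Y2 ^ 2 + 2 * Z ^ 2) := by
      positivity
    have A6 : 0 ≤ 2 * (f * (r * Z ^ 2)) := by positivity
    have e1 : f * (r * (Y1 ^ 2 + Y2 ^ 2)) = f * (ρ z * U ^ 2) - 2 * (f * (r * (Y1 * Y2))) := by
      have s : (Y1 + Y2) ^ 2 = (ρ z * U) ^ 2 := by rw [q]; ring
      have : f * (r * (Y1 ^ 2 + Y2 ^ 2)) = f * (r * ((Y1 + Y2) ^ 2)) -
        2 * (f * (r * (Y1 * Y2))) := by ring
      rw [this, s]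
      have : f * (r * (ρ z * U) ^ 2) = f * ((r * ρ z) * (ρ z * U ^ 2)) := by ring
      rw [this, Rz, one_mul]
    rw [e1]
    have e3 : f * (ρ z * U ^ 2) + -2 * (f * (b1 * (W1 * Y2) + r * (Y1 * Y2 + W1 * X)) +
        a1 * (r * (W1 * Y2))) + 2 * (f * (b2 * (W1 * Z) + r * (Z * Z + W1 * X)) +
        a2 * (r * (W1 * Z))) + η * (4 * M ^ 2) * (U ^ 2 + W1 ^ 2 + W2 ^ 2 + Y1 ^ 2 + Y2 ^ 2 +
        Z ^ 2) = f * (ρ z * U ^ 2) - 2 * (f * (r * (Y1 * Y2))) + 2 * (f * (r * Z ^ 2)) -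
        2 * ((f * b1 + a1 * r) * (W1 * Y2)) + 2 * ((f * b2 + a2 * r) * (W1 * Z)) +
        2 * ((2 * (η * M ^ 2)) * ((W1 ^ 2 + Y2 ^ 2) / 2)) +
        2 * ((2 * (η * M ^ 2)) * ((W1 ^ 2 + Z ^ 2) / 2)) +
        (η * M ^ 2) * (4 * U ^ 2 + 4 * W2 ^ 2 + 4 * Y1 ^ 2 + 2 * Y2 ^ 2 + 2 * Z ^ 2) := by ring
    rw [e3]
    linarith
  · unfold T
    rw [z0 z hzS, z1 h 1 z hzS, z1 h I z hzS, Set.indicator_of_notMem hzS]
    simp

/-- **The main inequality.** -/
theorem L3 (hB : IsOpen B) {S : Set ℂ} (hSc : IsCompact S) (hSB : S ⊆ B) {ρ : ℂ → ℝ} {M0 : ℝ}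
    (M01 : 1 ≤ M0) (hρ : ContDiffOn ℝ ∞ ρ B) (ρ0 : ∀ z ∈ B, 0 < ρ z) {k : ℝ → ℝ} {C : ℝ} (C0 : 0 < C)
    (sk : ContDiff ℝ ∞ k) (k4 : ∀ t, t * k t ≤ 4) (k2 : ∀ t, |k t| ≤ 2)
    (k1 : ∀ t, |1 - deriv k t| ≤ C * |t|) (k3 : ∀ t, |k t - t * deriv k t| ≤ C) :
    ∃ K : ℝ, 0 ≤ K ∧ ∀ (h η : ℝ) (φ u : ℂ → ℝ), Adm B S h η M0 φ → Sol B h ρ u → ∀ (g : ℝ → ℝ) (J r : ℝ),
      ContDiff ℝ ∞ g → (∀ x, 0 ≤ g x) → (∀ x, 0 ≤ Pr g x) → (∀ x, Pr g x ≤ J) → 0 < r →
      ∫ z, φ z * (ρ z * (Pr g (u z) * u z)) ≤ 8 * r ^ 2 * (∫ z, φ z * (ρ z * g (u z))) +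
        J * C / r * ((∫ z, φ z * (ρ z * u z ^ 2)) + η * K * ∫ z in S, e2 h u z) +
        η * J * r * K := by
  obtain ⟨K1, K10, hK1⟩ := L1 hB hSc hSB M01 hρ
  obtain ⟨K2, K20, hK2⟩ := L2 hB hSc hSB (M0 := M0) hρ ρ0
  obtain ⟨κ, hκ⟩ : ∃ κ : ℂ → ℝ, κ = fun z => √(ρ z) := ⟨_, rfl⟩
  have sκ : ContDiffOn ℝ ∞ κ B := by rw [hκ]; exact hρ.sqrt fun z hz => (ρ0 z hz).ne'
  have κ0 : ∀ z ∈ B, 0 < κ z := fun z hz => by rw [hκ]; exact Real.sqrt_pos.2 (ρ0 z hz)
  have κ2 : ∀ z ∈ B, κ z ^ 2 = ρ z := fun z hz => by rw [hκ]; exact Real.sq_sqrt (ρ0 z hz).le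
  obtain ⟨M, M1, hM⟩ := bds hSc [fun _ => M0, κ,
    fun z => fderiv ℝ κ z 1, fun z => fderiv ℝ κ z I] (by
    simp only [List.mem_cons, List.not_mem_nil, or_false, forall_eq_or_imp, forall_eq]
    exact ⟨continuousOn_const, sκ.continuousOn.mono hSB,
      (rsd hB sκ 1).continuousOn.mono hSB, (rsd hB sκ I).continuousOn.mono hSB⟩)
  simp only [List.mem_cons, List.not_mem_nil, or_false, forall_eq_or_imp, forall_eq] at hM
  obtain ⟨V, hV⟩ : ∃ V : ℝ, V = ∫ z in S, (1 : ℝ) := ⟨_, rfl⟩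
  have V0 : 0 ≤ V := by rw [hV]; exact integral_nonneg fun z => zero_le_one
  obtain ⟨N, hN⟩ : ∃ N : ℝ, N = M ^ 2 * C + 2 * M ^ 2 := ⟨_, rfl⟩
  have N0 : 0 ≤ N := by rw [hN]; positivity
  refine ⟨K1 + K2 + 2 * N * V, by positivity, fun h η φ u A hu g J r sg g0 P0 PJ r0 => ?_⟩
  have hφ := A.tf
  have hφ0 := A.pos
  have z0 : ∀ z, z ∉ S → φ z = 0 := fun z hz => image_eq_zero_of_notMem_tsupport fun h => hz (A.sp h)
  have z1 : ∀ h v z, z ∉ S → d h v φ z = 0 := fun h v z hz => by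
    unfold d
    rw [fderiv_of_notMem_tsupport ℝ fun h => hz (A.sp h)]
    simp
  have cφ : Continuous φ := hφ.1.continuous
  have ηp : 0 < η := A.hp.trans_le A.hη
  have hp := hu.hp
  have J0 : 0 ≤ J := (P0 0).trans (PJ 0)
  have s0 := hu.su
  have s1 : ∀ v, ContDiffOn ℝ ∞ (d h v u) B := fun v => d_sm hB s0 h v
  have s2 : ∀ v w, ContDiffOn ℝ ∞ (d h w (d h v u)) B := fun v w => d_sm hB (s1 v) h w
  obtain ⟨s, hs⟩ : ∃ s : ℂ → ℝ, s = fun z => κ z * r := ⟨_, rfl⟩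
  have ss : ContDiffOn ℝ ∞ s B := by rw [hs]; exact sκ.mul contDiffOn_const
  have sp : ∀ z ∈ B, 0 < s z := fun z hz => by rw [hs]; exact mul_pos (κ0 z hz) r0
  have si : ContDiffOn ℝ ∞ (fun z => (s z)⁻¹) B := ss.inv fun z hz => (sp z hz).ne'
  have sP : ContDiffOn ℝ ∞ (fun z => Pr g (u z)) B := (Pr_sm sg).comp_contDiffOn s0
  have st : ∀ v, ContDiffOn ℝ ∞ (fun z => d h v u z * (s z)⁻¹) B := fun v => (s1 v).mul si
  have sK : ∀ v, ContDiffOn ℝ ∞ (fun z => k (d h v u z * (s z)⁻¹)) B := fun v =>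
    sk.comp_contDiffOn (st v)
  have sG : ∀ v, ContDiffOn ℝ ∞ (fun z => s z * k (d h v u z * (s z)⁻¹)) B := fun v =>
    ss.mul (sK v)
  have sF : ∀ v, ContDiffOn ℝ ∞ (fun z => Pr g (u z) * (s z * k (d h v u z * (s z)⁻¹))) B :=
    fun v => sP.mul (sG v)
  obtain ⟨t1, t2⟩ := T_int hB hφ (sF 1) h 1
  obtain ⟨t3, t4⟩ := T_int hB hφ (sF I) h I
  obtain ⟨iE, eE⟩ := ind_int hSc (F := fun _ => (1 : ℝ)) continuousOn_const
  have cu := s0.continuousOn.mono hSB
  have cρ := hρ.continuousOn.mono hSB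
  have iA : Integrable (fun z => φ z * (ρ z * (Pr g (u z) * u z))) :=
    rint hSc (cφ.continuousOn.mul (cρ.mul ((sP.continuousOn.mono hSB).mul cu)))
      fun z hz => by rw [z0 z hz, zero_mul]
  have ig : Integrable (fun z => φ z * (ρ z * g (u z))) :=
    rint hSc (cφ.continuousOn.mul (cρ.mul (sg.continuous.comp_continuousOn cu)))
      fun z hz => by rw [z0 z hz, zero_mul]
  have iW : Integrable (fun z => φ z * (d h 1 u z ^ 2 + d h I u z ^ 2)) :=
    rint hSc (cφ.continuousOn.mul ((((s1 1).continuousOn.mono hSB).pow 2).add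
      (((s1 I).continuousOn.mono hSB).pow 2))) fun z hz => by rw [z0 z hz, zero_mul]
  have iY : Integrable (fun z => φ z * ((ρ z)⁻¹ * (d h 1 (d h 1 u) z ^ 2 +
      d h I (d h I u) z ^ 2))) :=
    rint hSc (cφ.continuousOn.mul ((cρ.inv₀ fun z hz => (ρ0 z (hSB hz)).ne').mul
      ((((s2 1 1).continuousOn.mono hSB).pow 2).add
      (((s2 I I).continuousOn.mono hSB).pow 2)))) fun z hz => by rw [z0 z hz, zero_mul]
  have j1 : Integrable (fun z => 8 * r ^ 2 * (φ z * (ρ z * g (u z)))) := ig.const_mul (8 * r ^ 2)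
  have j2 : Integrable (fun z => J * C / (2 * r) * (φ z * (d h 1 u z ^ 2 + d h I u z ^ 2) +
      φ z * ((ρ z)⁻¹ * (d h 1 (d h 1 u) z ^ 2 + d h I (d h I u) z ^ 2)))) :=
    (iW.add iY).const_mul (J * C / (2 * r))
  have iR : Integrable (fun z => 8 * r ^ 2 * (φ z * (ρ z * g (u z))) +
      J * C / (2 * r) * (φ z * (d h 1 u z ^ 2 + d h I u z ^ 2) +
      φ z * ((ρ z)⁻¹ * (d h 1 (d h 1 u) z ^ 2 + d h I (d h I u) z ^ 2)))) := j1.add j2
  have big := mono3 (a := -1) (b := -1) (c := η * J * r * (2 * N)) iA iR t1 t3 iE t2 t4 (by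
    intro z
    by_cases hzS : z ∈ S
    · have hz := hSB hzS
      obtain ⟨m0, m4, m5, m6⟩ := hM
      have MM : M0 ≤ M := (le_abs_self _).trans (m0 z hzS)
      have n1 := (A.d1 z hzS).trans (mul_le_mul_of_nonneg_left MM ηp.le)
      have n2 := (A.dI z hzS).trans (mul_le_mul_of_nonneg_left MM ηp.le)
      have n3 := (A.bd z hzS).trans MM
      have n4 := m4 z hzS
      have sd : ∀ v, d h v s z = d h v κ z * r := fun v => by
        rw [hs, d_mul (g := fun _ => r) (rdA hB sκ hz) (differentiableAt_const _)]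
        unfold d
        simp
      have hM : h * M ≤ η * M := mul_le_mul_of_nonneg_right A.hη (by linarith)
      have n5 : |d h 1 s z| ≤ η * M * r := by
        rw [sd, abs_mul, abs_of_pos r0]
        exact mul_le_mul_of_nonneg_right ((absd (h := h) hp (m5 z hzS)).trans hM) r0.le
      have n6 : |d h I s z| ≤ η * M * r := by
        rw [sd, abs_mul, abs_of_pos r0]
        exact mul_le_mul_of_nonneg_right ((absd (h := h) hp (m6 z hzS)).trans hM) r0.le
      have n7 : s z ≤ M * r := by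
        rw [hs]
        exact mul_le_mul_of_nonneg_right ((le_abs_self _).trans n4) r0.le
      have q := hu.eq z hz
      have ρs : s z ^ 2 = ρ z * r ^ 2 := by
        rw [hs]; show (κ z * r) ^ 2 = _; rw [mul_pow, κ2 z hz]
      have dF : ∀ v, d h v (fun z => Pr g (u z) * (s z * k (d h v u z * (s z)⁻¹))) z =
          g (u z) * d h v u z * (s z * k (d h v u z * (s z)⁻¹)) + Pr g (u z) *
          (d h v s z * k (d h v u z * (s z)⁻¹) + s z * (deriv k (d h v u z * (s z)⁻¹) *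
          (d h v (d h v u) z * (s z)⁻¹ + d h v u z * (-(d h v s z) * ((s z)⁻¹) ^ 2)))) := by
        intro v
        rw [d_mul (rdA hB sP hz) (rdA hB (sG v) hz),
          d_mul (rdA hB ss hz) (rdA hB (sK v) hz),
          d_comp (k := Pr g) (rdA hB s0 hz) (Pr_d sg _).differentiableAt,
          d_comp (k := k) (rdA hB (st v) hz) (sk.differentiable (by simp) _),
          d_mul (rdA hB (s1 v) hz) (rdA hB si hz),
          d_inv (rdA hB ss hz) (sp z hz).ne', (Pr_d sg _).deriv]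
      have p1 := pt1 (f := φ z) (ψ := Pr g (u z)) (J := J) (C := C) (r := r) (h := η) (M := M)
        (s := s z) (sv := d h 1 s z) (ι := (s z)⁻¹) (W := d h 1 u z) (Y := d h 1 (d h 1 u) z)
        (kt := k (d h 1 u z * (s z)⁻¹)) (kd := deriv k (d h 1 u z * (s z)⁻¹)) (a := d h 1 φ z)
        (g := g (u z)) (ρ := ρ z) (hφ0 z) n3 (sp z hz) (inv_mul_cancel₀ (sp z hz).ne') (ρ0 z hz)
        ρs r0 (P0 _) (PJ _) (g0 _) C0 n5 n1 n7 (k4 _) (k2 _) (k1 _) (k3 _) ηp M1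
      have p2 := pt1 (f := φ z) (ψ := Pr g (u z)) (J := J) (C := C) (r := r) (h := η) (M := M)
        (s := s z) (sv := d h I s z) (ι := (s z)⁻¹) (W := d h I u z) (Y := d h I (d h I u) z)
        (kt := k (d h I u z * (s z)⁻¹)) (kd := deriv k (d h I u z * (s z)⁻¹)) (a := d h I φ z)
        (g := g (u z)) (ρ := ρ z) (hφ0 z) n3 (sp z hz) (inv_mul_cancel₀ (sp z hz).ne') (ρ0 z hz)
        ρs r0 (P0 _) (PJ _) (g0 _) C0 n6 n2 n7 (k4 _) (k2 _) (k1 _) (k3 _) ηp M1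
      rw [Set.indicator_of_mem hzS]
      unfold T
      rw [dF 1, dF I]
      have e1 : φ z * (ρ z * (Pr g (u z) * u z)) = -(φ z * (Pr g (u z) * d h 1 (d h 1 u) z)) +
          -(φ z * (Pr g (u z) * d h I (d h I u) z)) := by
        have : ρ z * u z = -(d h 1 (d h 1 u) z + d h I (d h I u) z) := by rw [q]; ring
        have e : φ z * (ρ z * (Pr g (u z) * u z)) = φ z * (Pr g (u z) * (ρ z * u z)) := by ring
        rw [e, this]; ring
      rw [e1, hN]
      linear_combination p1 + p2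
    · unfold T
      rw [z0 z hzS, z1 h 1 z hzS, z1 h I z hzS, Set.indicator_of_notMem hzS]
      simp)
  rw [eE, ← hV] at big
  have eR : ∫ z, (8 * r ^ 2 * (φ z * (ρ z * g (u z))) +
      J * C / (2 * r) * (φ z * (d h 1 u z ^ 2 + d h I u z ^ 2) +
      φ z * ((ρ z)⁻¹ * (d h 1 (d h 1 u) z ^ 2 + d h I (d h I u) z ^ 2)))) =
      8 * r ^ 2 * (∫ z, φ z * (ρ z * g (u z))) + J * C / (2 * r) *
      ((∫ z, φ z * (d h 1 u z ^ 2 + d h I u z ^ 2)) + ∫ z, φ z * ((ρ z)⁻¹ *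
      (d h 1 (d h 1 u) z ^ 2 + d h I (d h I u) z ^ 2))) := by
    rw [integral_add j1 j2, integral_const_mul, integral_const_mul, integral_add iW iY]
  have b1 := hK1 h η φ u A hu
  have b2 := hK2 h η φ u A hu
  obtain ⟨Q, hQ⟩ : ∃ Q : ℝ, Q = ∫ z in S, e2 h u z := ⟨_, rfl⟩
  have Q0 : 0 ≤ Q := by
    rw [hQ]
    refine integral_nonneg fun z => ?_
    unfold e2
    positivity
  rw [← hQ] at b1 b2 ⊢
  rw [eR] at big
  generalize (∫ z, φ z * (ρ z * (Pr g (u z) * u z))) = A0 at *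
  generalize (∫ z, φ z * (ρ z * g (u z))) = G at *
  generalize (∫ z, φ z * (d h 1 u z ^ 2 + d h I u z ^ 2)) = A1 at *
  generalize (∫ z, φ z * ((ρ z)⁻¹ * (d h 1 (d h 1 u) z ^ 2 + d h I (d h I u) z ^ 2))) = A2 at *
  generalize (∫ z, φ z * (ρ z * u z ^ 2)) = m at *
  have c1 : J * C / (2 * r) * (A1 + A2) ≤ J * C / (2 * r) * ((m + η * K1 * Q) +
      (m + η * K2 * Q)) := mul_le_mul_of_nonneg_left (add_le_add b1 b2) (by positivity)
  have c2 : J * C / (2 * r) * ((m + η * K1 * Q) + (m + η * K2 * Q)) ≤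
      J * C / r * (m + η * (K1 + K2 + 2 * N * V) * Q) := by
    have e1 : J * C / (2 * r) * ((m + η * K1 * Q) + (m + η * K2 * Q)) =
      J * C / r * (m + η * Q * ((K1 + K2) / 2)) := by field_simp; ring
    rw [e1]
    refine mul_le_mul_of_nonneg_left ?_ (by positivity)
    have hQ0 : 0 ≤ η * Q := by positivity
    have : η * Q * ((K1 + K2) / 2) ≤ η * Q * (K1 + K2 + 2 * N * V) :=
      mul_le_mul_of_nonneg_left (by nlinarith [mul_nonneg N0 V0]) hQ0
    nlinarith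
  have c3 : η * J * r * (2 * N) * V ≤ η * J * r * (K1 + K2 + 2 * N * V) := by
    have : 0 ≤ η * J * r := by positivity
    nlinarith
  linarith

/-- the mean against a test function is small -/
theorem L4 (hB : IsOpen B) {S : Set ℂ} (hSc : IsCompact S) (hSB : S ⊆ B) {ρ : ℂ → ℝ} {M : ℝ}
    (M1 : 1 ≤ M) (hρ : ContDiffOn ℝ ∞ ρ B) :
    ∃ K : ℝ, 0 ≤ K ∧ ∀ (h η : ℝ) (φ u : ℂ → ℝ), Adm B S h η M φ → Sol B h ρ u →
      |∫ z, φ z * (ρ z * u z)| ≤ η * K * ((∫ z in S, (1 : ℝ)) +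
        ∫ z in S, e2 h u z) := by
  refine ⟨M, by linarith, fun h η φ u A hu => ?_⟩
  have hφ := A.tf
  have hφ0 := A.pos
  have z0 : ∀ z, z ∉ S → φ z = 0 := fun z hz => image_eq_zero_of_notMem_tsupport fun h => hz (A.sp h)
  have z1 : ∀ h v z, z ∉ S → d h v φ z = 0 := fun h v z hz => by
    unfold d
    rw [fderiv_of_notMem_tsupport ℝ fun h => hz (A.sp h)]
    simp
  have cφ : Continuous φ := hφ.1.continuous
  have ηp : 0 < η := A.hp.trans_le A.hη
  have hp := hu.hp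
  have s0 := hu.su
  have s1 : ∀ v, ContDiffOn ℝ ∞ (d h v u) B := fun v => d_sm hB s0 h v
  obtain ⟨t1, t2⟩ := T_int hB hφ (s1 1) h 1
  obtain ⟨t3, t4⟩ := T_int hB hφ (s1 I) h I
  have ce := (e2_co (h := h) hB s0).mono hSB
  obtain ⟨iE, eE⟩ := ind_int hSc (F := fun z => 1 + e2 h u z) (continuousOn_const.add ce)
  have eS : ∫ z in S, ((1 : ℝ) + e2 h u z) = (∫ z in S, (1 : ℝ)) + ∫ z in S, e2 h u z :=
    integral_add (continuousOn_const.integrableOn_compact hSc) (ce.integrableOn_compact hSc)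
  have iA : Integrable (fun z => φ z * (ρ z * u z)) :=
    rint hSc (cφ.continuousOn.mul ((hρ.continuousOn.mono hSB).mul
      (s0.continuousOn.mono hSB))) fun z hz => by rw [z0 z hz, zero_mul]
  have iZ : Integrable (fun _ : ℂ => (0 : ℝ)) := integrable_zero _ _ _
  have pt : ∀ z, |φ z * (ρ z * u z) + T h 1 φ (d h 1 u) z + T h I φ (d h I u) z| ≤
      η * M * S.indicator (fun z => 1 + e2 h u z) z := by
    intro z
    by_cases hzS : z ∈ S
    · have hz := hSB hzS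
      have n1 := A.d1 z hzS
      have n2 := A.dI z hzS
      have q := hu.eq z hz
      rw [Set.indicator_of_mem hzS]
      unfold T
      have e1 : φ z * (ρ z * u z) + (φ z * d h 1 (d h 1 u) z + d h 1 φ z * d h 1 u z) +
          (φ z * d h I (d h I u) z + d h I φ z * d h I u z) =
          d h 1 φ z * d h 1 u z + d h I φ z * d h I u z := by
        linear_combination (φ z) * q
      rw [e1]
      unfold e2
      generalize d h 1 (d h 1 u) z = Y1 at *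
      generalize d h I (d h I u) z = Y2 at *
      generalize d h I (d h 1 u) z = Z at *
      generalize d h 1 u z = W1 at *
      generalize d h I u z = W2 at *
      generalize u z = U at *
      generalize d h 1 φ z = a1 at *
      generalize d h I φ z = a2 at *
      refine (abs_add_le _ _).trans ?_
      rw [abs_mul, abs_mul]
      have hM0 : 0 ≤ η * M := by positivity
      have b1 : |a1| * |W1| ≤ (η * M) * ((1 + W1 ^ 2) / 2) := by
        refine mul_le_mul n1 ?_ (abs_nonneg _) hM0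
        rw [← sq_abs W1]; nlinarith [sq_nonneg (|W1| - 1)]
      have b2 : |a2| * |W2| ≤ (η * M) * ((1 + W2 ^ 2) / 2) := by
        refine mul_le_mul n2 ?_ (abs_nonneg _) hM0
        rw [← sq_abs W2]; nlinarith [sq_nonneg (|W2| - 1)]
      have b3 : 0 ≤ (η * M) * (U ^ 2 + W1 ^ 2 / 2 + W2 ^ 2 / 2 + Y1 ^ 2 + Y2 ^ 2 + Z ^ 2) := by
        positivity
      nlinarith
    · unfold T
      rw [z0 z hzS, z1 h 1 z hzS, z1 h I z hzS, Set.indicator_of_notMem hzS]
      simp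
  rw [← eS, ← eE, abs_le]
  have u1 := mono3 (a := -1) (b := -1) (c := η * M) iA iZ t1 t3 iE t2 t4 fun z => by
    have := (abs_le.1 (pt z)).2
    linarith
  have u2 := mono3 (a := 1) (b := 1) (c := η * M) iA.neg iZ t1 t3 iE t2 t4 fun z => by
    have := (abs_le.1 (pt z)).1
    simp only [Pi.neg_apply]
    linarith
  simp only [Pi.neg_apply] at u2
  rw [integral_neg] at u2
  rw [integral_zero, zero_add] at u1 u2
  constructor <;> linarith

end

end Pool.Agent.Y139.JL
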