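import Pool.Agent.Y139.JL.A

/-!
Project JL (helper139): sequences of solutions and of test functions.
-/

set_option autoImplicit false
open MeasureTheory Filter Topology Complex
open scoped ContDiff ENNReal

namespace Pool.Agent.Y139.JL

open Pool.Agent.W745.RW Pool.Agent.TH294.RS Pool.Agent.TH294.RG Pool.Agent.TH421.DF
open Pool.Agent.TH421.AC Pool.Agent.Results.MP_a52643_an.AbsoluteContinuity
open Pool.Agent.Y139.PD hiding seq_bd S1 S2 halfA halfB mean lim' L1 L2 L3 L4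

noncomputable section

/-- eventually, `u n` solves the scaled equation with a bounded energy -/
theorem seq_bd {Ω : Set ℂ} {ρ : ℂ → ℝ} {lam : ℕ → ℝ} {u : ℕ → ℂ → ℝ} (H : Hyp Ω ρ lam u)
    {S : Set ℂ} (hSc : IsCompact S) (hSB : S ⊆ Ω) : ∃ (h : ℕ → ℝ) (Q : ℝ), 0 ≤ Q ∧
      Tendsto h atTop (𝓝 0) ∧ ∀ᶠ n in atTop, Sol Ω (h n) ρ (u n) ∧
        ∫ z in S, e2 (h n) (u n) z ≤ Q ∧ h n = (√(lam n))⁻¹ := by
  obtain ⟨hΩ, hρ, hρ0, hlam, hu, he, hL⟩ := H
  obtain ⟨N0, hN0⟩ := (eventually_atTop.1 (hlam.eventually_ge_atTop 1))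
  obtain ⟨l, hl⟩ : ∃ l : ℕ → ℝ, ∀ n, l n = lam (n + N0) := ⟨_, fun _ => rfl⟩
  have l1 : ∀ n, 1 ≤ l n := fun n => by rw [hl]; exact hN0 _ (Nat.le_add_left _ _)
  have ll : Tendsto l atTop atTop :=
    (hlam.comp (tendsto_add_atTop_nat N0)).congr fun n => (hl n).symm
  obtain ⟨h, hh⟩ : ∃ h : ℕ → ℝ, ∀ n, h n = (√(l n))⁻¹ := ⟨_, fun _ => rfl⟩
  have hp : ∀ n, 0 < h n := fun n => by
    rw [hh]; exact inv_pos.2 (Real.sqrt_pos.2 (lt_of_lt_of_le one_pos (l1 n)))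
  have h0 : Tendsto h atTop (𝓝 0) :=
    (tendsto_inv_atTop_zero.comp (Real.tendsto_sqrt_atTop.comp ll)).congr fun n => (hh n).symm
  have h2 : ∀ n, h n ^ 2 * l n = 1 := fun n => by
    have p : 0 < l n := lt_of_lt_of_le one_pos (l1 n)
    rw [hh, inv_pow, Real.sq_sqrt p.le, inv_mul_cancel₀ p.ne']
  obtain ⟨w, hw⟩ : ∃ w : ℕ → ℂ → ℝ, w = fun n => u (n + N0) := ⟨_, rfl⟩
  have sw : ∀ n, ContDiffOn ℝ ∞ (w n) Ω := fun n => by rw [hw]; exact hu _
  have ew : ∀ n, ∀ z ∈ Ω, h n ^ 2 * lapl (w n) z = -(ρ z * w n z) := by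
    intro n z hz
    have e1 := he (n + N0) z hz
    rw [← hl] at e1
    have e2 : lapl (w n) z = - (l n * (ρ z * w n z)) := by
      rw [hw]; show lapl (u (n + N0)) z = - (l n * (ρ z * u (n + N0) z)); linarith
    rw [e2]
    have := h2 n
    linear_combination (-(ρ z * w n z)) * this
  have lbw : LB Ω 2 (cx w) := by
    refine ⟨fun n => Complex.ofRealCLM.contDiff.comp_contDiffOn (sw n), fun K hK hKB => ?_⟩
    obtain ⟨C, hC⟩ := hL K hK hKB
    refine ⟨C, ?_⟩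
    have h3 := (tendsto_add_atTop_nat N0).eventually hC
    refine h3.mono fun n hn => ?_
    simp only [cx, Complex.norm_real, Real.norm_eq_abs, sq_abs, hw]
    exact hn
  have MKw : MK2 Ω h 3 (cx w) := by
    refine mk_sol hΩ hp h0 lbw (ρ := fun z => (ρ z : ℂ))
      (Complex.ofRealCLM.contDiff.comp_contDiffOn hρ) (c := fun _ => 1) (M := 1)
      (Eventually.of_forall fun n => by norm_num) ?_ 3
    intro n z hz
    have e1 : lap (cx w n) z = ((lapl (w n) z : ℝ) : ℂ) := lap_re hΩ (sw n) hz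
    simp only [Pool.Agent.TH294.RS.hL]
    rw [e1]
    have e2 := ew n z hz
    have e3 : ((h n ^ 2 * lapl (w n) z : ℝ) : ℂ) = ((-(ρ z * w n z) : ℝ) : ℂ) := by rw [e2]
    push_cast at e3
    simp only [cx]
    push_cast
    rw [e3]; ring
  have q1 := mk_rd hΩ sw MKw
  have sm1 : ∀ v n, ContDiffOn ℝ ∞ (rd h v w n) Ω := fun v n => rd_sm hΩ sw v n
  have q2 := mk_rd hΩ (sm1 1) q1.1
  have q3 := mk_rd hΩ (sm1 I) q1.2
  obtain ⟨A1, A10, b1⟩ := lb_re MKw.lb hSc hSB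
  obtain ⟨A2, A20, b2⟩ := lb_re q1.1.lb hSc hSB
  obtain ⟨A3, A30, b3⟩ := lb_re q1.2.lb hSc hSB
  obtain ⟨A4, A40, b4⟩ := lb_re q2.1.lb hSc hSB
  obtain ⟨A5, A50, b5⟩ := lb_re q3.2.lb hSc hSB
  obtain ⟨A6, A60, b6⟩ := lb_re q2.2.lb hSc hSB
  have fin : ∀ᶠ n in atTop, Sol Ω (h n) ρ (w n) ∧
      ∫ z in S, e2 (h n) (w n) z ≤ A1 + A2 + A3 + A4 + A5 + A6 ∧
      h n = (√(lam (n + N0)))⁻¹ := by
    filter_upwards [b1, b2, b3, b4, b5, b6] with n b1 b2 b3 b4 b5 b6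
    refine ⟨⟨hp n, sw n, fun z hz => ?_⟩, ?_, by rw [hh, hl]⟩
    · have e1 := rdd hΩ (h := h) sw 1 n hz
      have e2 := rdd hΩ (h := h) sw I n hz
      have e3 := ew n z hz
      have e4 : d (h n) 1 (d (h n) 1 (w n)) z + d (h n) I (d (h n) I (w n)) z =
        h n ^ 2 * lapl (w n) z := by
        show rd h 1 (rd h 1 w) n z + rd h I (rd h I w) n z = _
        rw [e1, e2]; unfold lapl; ring
      rw [e4, e3]
    · have c0 : ∀ {F : ℂ → ℝ}, ContDiffOn ℝ ∞ F Ω → IntegrableOn (fun z => F z ^ 2) S volume :=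
        fun hF => ((hF.continuousOn.mono hSB).pow 2).integrableOn_compact hSc
      have i1 := c0 (sw n)
      have i2 := c0 (sm1 1 n)
      have i3 := c0 (sm1 I n)
      have i4 := c0 (rd_sm (h := h) hΩ (sm1 1) 1 n)
      have i5 := c0 (rd_sm (h := h) hΩ (sm1 I) I n)
      have i6 := c0 (rd_sm (h := h) hΩ (sm1 1) I n)
      have j2 : IntegrableOn (fun z => w n z ^ 2 + rd h 1 w n z ^ 2) S volume := i1.add i2
      have j3 : IntegrableOn (fun z => w n z ^ 2 + rd h 1 w n z ^ 2 + rd h I w n z ^ 2) S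
        volume := j2.add i3
      have j4 : IntegrableOn (fun z => w n z ^ 2 + rd h 1 w n z ^ 2 + rd h I w n z ^ 2 +
        rd h 1 (rd h 1 w) n z ^ 2) S volume := j3.add i4
      have j5 : IntegrableOn (fun z => w n z ^ 2 + rd h 1 w n z ^ 2 + rd h I w n z ^ 2 +
        rd h 1 (rd h 1 w) n z ^ 2 + rd h I (rd h I w) n z ^ 2) S volume := j4.add i5
      have e : ∫ z in S, e2 (h n) (w n) z = ∫ z in S, (w n z ^ 2 + rd h 1 w n z ^ 2 +
        rd h I w n z ^ 2 + rd h 1 (rd h 1 w) n z ^ 2 + rd h I (rd h I w) n z ^ 2 +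
        rd h I (rd h 1 w) n z ^ 2) := rfl
      rw [e, integral_add j5 i6, integral_add j4 i5, integral_add j3 i4, integral_add j2 i3,
        integral_add i1 i2]
      linarith
  refine ⟨fun n => h (n - N0), A1 + A2 + A3 + A4 + A5 + A6, by positivity, ?_, ?_⟩
  · exact h0.comp (tendsto_sub_atTop_nat N0)
  · rw [← Filter.map_add_atTop_eq_nat N0, eventually_map]
    refine fin.mono fun n hn => ?_
    beta_reduce
    rw [Nat.add_sub_cancel]
    rw [hw] at hn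
    exact hn

/-- **The cubic inequality along a sequence.** -/
theorem S1 {Ω : Set ℂ} {ρ : ℂ → ℝ} {lam : ℕ → ℝ} {u : ℕ → ℂ → ℝ} (H : Hyp Ω ρ lam u)
    {S : Set ℂ} (hSc : IsCompact S) (hSB : S ⊆ Ω) {M0 : ℝ} (M01 : 1 ≤ M0) {φ : ℕ → ℂ → ℝ}
    {η : ℕ → ℝ} (hη : Tendsto η atTop (𝓝 0))
    (hA : ∀ᶠ n in atTop, Adm Ω S (√(lam n))⁻¹ (η n) M0 (φ n)) {m : ℝ} (m0 : 0 < m)
    (hm : ∀ᶠ n in atTop, ∫ z, φ n z * (ρ z * u n z ^ 2) ≤ m)
    {k : ℝ → ℝ} {C : ℝ} (C0 : 0 < C)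
    (sk : ContDiff ℝ ∞ k) (k4 : ∀ t, t * k t ≤ 4) (k2 : ∀ t, |k t| ≤ 2)
    (k1 : ∀ t, |1 - deriv k t| ≤ C * |t|) (k3 : ∀ t, |k t - t * deriv k t| ≤ C)
    {ε : ℝ} (ε0 : 0 < ε) :
    ∀ᶠ n in atTop, ∀ (g : ℝ → ℝ) (J : ℝ), ContDiff ℝ ∞ g → (∀ x, 0 ≤ g x) →
      (∀ x, 0 ≤ Pr g x) → (∀ x, Pr g x ≤ J) → 0 < J →
      ε * J ≤ ∫ z, φ n z * (ρ z * (Pr g (u n z) * u n z)) →
      (∫ z, φ n z * (ρ z * (Pr g (u n z) * u n z))) ^ 3 ≤
        1024 * C ^ 2 * m ^ 2 * J ^ 2 * ∫ z, φ n z * (ρ z * g (u n z)) := by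
  obtain ⟨K, K0, hK⟩ := L3 H.oΩ hSc hSB M01 H.sρ H.pρ C0 sk k4 k2 k1 k3
  obtain ⟨h, Q, Q0, h0, ev⟩ := seq_bd H hSc hSB
  have l1 : Tendsto (fun n => η n * (K * Q)) atTop (𝓝 0) := by
    have := hη.mul_const (K * Q); rwa [zero_mul] at this
  have l2 : Tendsto (fun n => η n * (32 * K * C * m)) atTop (𝓝 0) := by
    have := hη.mul_const (32 * K * C * m); rwa [zero_mul] at this
  filter_upwards [ev, hA, hm, l1.eventually (gt_mem_nhds m0),
    l2.eventually (gt_mem_nhds (by positivity : (0 : ℝ) < ε ^ 2))] with n ev ad hm a1 a2 g J sg g0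
    P0 PJ J0 ha
  obtain ⟨sol, eQ, he⟩ := ev
  rw [← he] at ad
  have ηp : 0 < η n := ad.hp.trans_le ad.hη
  refine arith (m' := ∫ z, φ n z * (ρ z * u n z ^ 2)) (Q' := ∫ z in S, e2 (h n) (u n) z)
    J0 C0 m0 K0 ηp ε0 ha ?_ (by linarith) (fun r r0 => ?_)
  · have := mul_le_mul_of_nonneg_left eQ (mul_nonneg ηp.le K0)
    nlinarith
  · exact hK (h n) (η n) (φ n) (u n) ad sol g J r sg g0 P0 PJ r0

/-- the means tend to zero -/
theorem S2 {Ω : Set ℂ} {ρ : ℂ → ℝ} {lam : ℕ → ℝ} {u : ℕ → ℂ → ℝ} (H : Hyp Ω ρ lam u)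
    {S : Set ℂ} (hSc : IsCompact S) (hSB : S ⊆ Ω) {M0 : ℝ} (M01 : 1 ≤ M0) {φ : ℕ → ℂ → ℝ}
    {η : ℕ → ℝ} (hη : Tendsto η atTop (𝓝 0))
    (hA : ∀ᶠ n in atTop, Adm Ω S (√(lam n))⁻¹ (η n) M0 (φ n)) :
    Tendsto (fun n => ∫ z, φ n z * (ρ z * u n z)) atTop (𝓝 0) := by
  obtain ⟨K, K0, hK⟩ := L4 H.oΩ hSc hSB M01 H.sρ
  obtain ⟨h, Q, Q0, h0, ev⟩ := seq_bd H hSc hSB
  have l1 : Tendsto (fun n => η n * (K * ((∫ z in S, (1 : ℝ)) + Q))) atTop (𝓝 0) := by
    have := hη.mul_const (K * ((∫ z in S, (1 : ℝ)) + Q)); rwa [zero_mul] at this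
  refine squeeze_zero_norm' ?_ l1
  filter_upwards [ev, hA] with n ev ad
  obtain ⟨sol, eQ, he⟩ := ev
  rw [← he] at ad
  have ηp : 0 < η n := ad.hp.trans_le ad.hη
  rw [Real.norm_eq_abs]
  refine (hK (h n) (η n) (φ n) (u n) ad sol).trans ?_
  have := mul_le_mul_of_nonneg_left eQ (mul_nonneg ηp.le K0)
  nlinarith

/-- **Part (a), positive side.** -/
theorem halfA {Ω : Set ℂ} {ρ : ℂ → ℝ} {lam : ℕ → ℝ} {u : ℕ → ℂ → ℝ} (H : Hyp Ω ρ lam u)
    {S : Set ℂ} (hSc : IsCompact S) (hSB : S ⊆ Ω) {M0 : ℝ} (M01 : 1 ≤ M0) {φ : ℕ → ℂ → ℝ}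
    {η : ℕ → ℝ} (hη : Tendsto η atTop (𝓝 0))
    (hA' : ∀ᶠ n in atTop, Adm Ω S (√(lam n))⁻¹ (η n) M0 (φ n)) {m : ℝ} (m0 : 0 < m)
    (hm : ∀ᶠ n in atTop, ∫ z, φ n z * (ρ z * u n z ^ 2) ≤ m)
    {k : ℝ → ℝ} {C : ℝ} (C0 : 0 < C)
    (sk : ContDiff ℝ ∞ k) (k4 : ∀ t, t * k t ≤ 4) (k2 : ∀ t, |k t| ≤ 2)
    (k1 : ∀ t, |1 - deriv k t| ≤ C * |t|) (k3 : ∀ t, |k t - t * deriv k t| ≤ C)
    {ε : ℝ} (ε0 : 0 < ε) :
    ∀ᶠ n in atTop, ∀ b : ℝ, 0 < b → ε ≤ b * law Ω (φ n) ρ (u n) (Set.Ici b) → ∀ A : Set ℝ,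
      MeasurableSet A → A ⊆ Set.Ioo 0 b →
      (volume A).toReal * (b * law Ω (φ n) ρ (u n) (Set.Ici b)) ^ 3 ≤
        1024 * C ^ 2 * m ^ 2 * law Ω (φ n) ρ (u n) A := by
  filter_upwards [S1 H hSc hSB M01 hη hA' m0 hm C0 sk k4 k2 k1 k3 ε0, hA'] with n hn ad b b0 hb A mA hA
  have hφ : Test Ω (φ n) := ⟨ad.tf.1, ad.tf.2.1, ad.tf.2.2, ad.pos⟩
  have cf := (H.su n).continuousOn
  have := mu_fin H.oΩ cf hφ H.sρ H.pρ
  obtain ⟨x, hx⟩ : ∃ x : ℝ, x = b * law Ω (φ n) ρ (u n) (Set.Ici b) := ⟨_, rfl⟩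
  rw [← hx] at hb ⊢
  have x0 : 0 < x := lt_of_lt_of_le ε0 hb
  have D0 : 0 < 1024 * C ^ 2 * m ^ 2 := by positivity
  have key := M1 (mu Ω (φ n) ρ (u n)) (isOpen_Ioo (a := (0 : ℝ)) (b := b))
    (c := x ^ 3 / (1024 * C ^ 2 * m ^ 2)) (by positivity) (fun g sg cg tg g0 => by
      obtain ⟨P0, P1, Pn, Pb⟩ := Pr_facts sg g0 tg cg
      rw [mu_int H.oΩ cf hφ H.sρ H.pρ sg.continuous]
      obtain ⟨J, hJ⟩ : ∃ J : ℝ, J = ∫ x, g x := ⟨_, rfl⟩
      have J0 : 0 ≤ J := by rw [hJ]; exact integral_nonneg g0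
      rw [← hJ]
      rcases J0.eq_or_lt with h | Jp
      · rw [← h, mul_zero]
        refine integral_nonneg fun z => ?_
        show 0 ≤ φ n z * (ρ z * g (u n z))
        by_cases hz : z ∈ Ω
        · exact mul_nonneg (hφ.2.2.2 z) (mul_nonneg (H.pρ z hz).le (g0 _))
        · rw [image_eq_zero_of_notMem_tsupport fun h => hz (hφ.2.2.1 h), zero_mul]
      · have lo := low H.oΩ (H.su n) hφ H.sρ H.pρ sg g0 tg cg b0
        rw [← hJ, ← hx] at lo
        have h1 := hn g J sg g0 P0 (fun x => by rw [hJ]; exact P1 x) Jp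
          ((by nlinarith : ε * J ≤ J * x).trans lo)
        have h2 : (J * x) ^ 3 ≤ (∫ z, φ n z * (ρ z * (Pr g (u n z) * u n z))) ^ 3 :=
          pow_le_pow_left₀ (by positivity) lo 3
        have h3 := h2.trans h1
        rw [div_mul_eq_mul_div, div_le_iff₀ D0]
        have e : (J * x) ^ 3 = J ^ 2 * (x ^ 3 * J) := by ring
        rw [e] at h3
        have e' : 1024 * C ^ 2 * m ^ 2 * J ^ 2 * (∫ z, φ n z * (ρ z * g (u n z))) =
          J ^ 2 * ((∫ z, φ n z * (ρ z * g (u n z))) * (1024 * C ^ 2 * m ^ 2)) := by ring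
        rw [e'] at h3
        exact le_of_mul_le_mul_left h3 (by positivity)) A hA
  rw [mu_law H.oΩ cf hφ H.sρ H.pρ mA] at key
  have vA : volume A ≠ ⊤ := ne_top_of_le_ne_top (by simp) (measure_mono hA)
  have k5 := ENNReal.toReal_mono ENNReal.ofReal_ne_top key
  rw [ENNReal.toReal_mul, ENNReal.toReal_ofReal (by positivity),
    ENNReal.toReal_ofReal (law_nonneg H.oΩ cf hφ H.pρ mA), div_mul_eq_mul_div,
    div_le_iff₀ D0] at k5
  linarith

/-- `ν` is a limit of the laws of `u n` under the measures `φ n ρ dz` -/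
def ILim (φ : ℕ → ℂ → ℝ) (ρ : ℂ → ℝ) (u : ℕ → ℂ → ℝ) (ν : Measure ℝ) : Prop :=
  ∃ σ : ℕ → ℕ, StrictMono σ ∧ ∀ g : ℝ → ℝ, Continuous g → HasCompactSupport g →
    Tendsto (fun n => ∫ z, φ (σ n) z * (g (u (σ n) z) * ρ z)) atTop (𝓝 (∫ x, g x ∂ν))

lemma lim' {φ : ℕ → ℂ → ℝ} {ρ : ℂ → ℝ} {u : ℕ → ℂ → ℝ} {σ : ℕ → ℕ} {ν : Measure ℝ}
    (hg : ∀ g : ℝ → ℝ, Continuous g → HasCompactSupport g →
      Tendsto (fun n => ∫ z, φ (σ n) z * (g (u (σ n) z) * ρ z)) atTop (𝓝 (∫ x, g x ∂ν)))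
    {g : ℝ → ℝ} (cg : Continuous g) (sg : HasCompactSupport g) :
    Tendsto (fun n => ∫ z, φ (σ n) z * (ρ z * g (u (σ n) z))) atTop (𝓝 (∫ x, g x ∂ν)) := by
  refine (hg g cg sg).congr fun n => ?_
  congr 1; funext z; ring

section

variable {Ω : Set ℂ} {ρ : ℂ → ℝ} {lam : ℕ → ℝ} {u : ℕ → ℂ → ℝ}

/-- **Part (b), positive side.** -/
theorem halfB (H : Hyp Ω ρ lam u)
    {S : Set ℂ} (hSc : IsCompact S) (hSB : S ⊆ Ω) {M0 : ℝ} (M01 : 1 ≤ M0) {φ : ℕ → ℂ → ℝ}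
    {η : ℕ → ℝ} (hη : Tendsto η atTop (𝓝 0))
    (hA' : ∀ᶠ n in atTop, Adm Ω S (√(lam n))⁻¹ (η n) M0 (φ n)) {m : ℝ} (m0 : 0 < m)
    (hm : ∀ᶠ n in atTop, ∫ z, φ n z * (ρ z * u n z ^ 2) ≤ m)
    {k : ℝ → ℝ} {C : ℝ} (C0 : 0 < C)
    (sk : ContDiff ℝ ∞ k) (k4 : ∀ t, t * k t ≤ 4) (k2 : ∀ t, |k t| ≤ 2)
    (k1 : ∀ t, |1 - deriv k t| ≤ C * |t|) (k3 : ∀ t, |k t - t * deriv k t| ≤ C)
    (ν : Measure ℝ) [IsFiniteMeasure ν] (hν : ILim φ ρ u ν) {b : ℝ} (b0 : 0 < b)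
    (A : Set ℝ) (hA : A ⊆ Set.Ioo 0 b) :
    (volume A).toReal * (b * (ν (Set.Ici b)).toReal) ^ 3 ≤
      1024 * C ^ 2 * m ^ 2 * (ν A).toReal := by
  obtain ⟨σ, hσ, hg⟩ := hν
  have tst : ∀ᶠ n in atTop, Test Ω (φ (σ n)) := (hσ.tendsto_atTop.eventually hA').mono
    fun n ad => ⟨ad.tf.1, ad.tf.2.1, ad.tf.2.2, ad.pos⟩
  have D0 : 0 < 1024 * C ^ 2 * m ^ 2 := by positivity
  obtain ⟨D, hD⟩ : ∃ D : ℝ, D = 1024 * C ^ 2 * m ^ 2 := ⟨_, rfl⟩
  rw [← hD] at D0 ⊢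
  obtain ⟨y, hy⟩ : ∃ y : ℝ, y = b * (ν (Set.Ici b)).toReal := ⟨_, rfl⟩
  rw [← hy]
  have y0 : 0 ≤ y := by rw [hy]; exact mul_nonneg b0.le ENNReal.toReal_nonneg
  have key := M1 ν (isOpen_Ioo (a := (0 : ℝ)) (b := b)) (c := y ^ 3 / D) (by positivity)
    (fun g sg cg tg g0 => by
      obtain ⟨P0, P1, Pn, Pb⟩ := Pr_facts sg g0 tg cg
      obtain ⟨J, hJ⟩ : ∃ J : ℝ, J = ∫ x, g x := ⟨_, rfl⟩
      have J0 : 0 ≤ J := by rw [hJ]; exact integral_nonneg g0
      rw [← hJ]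
      rcases J0.eq_or_lt with h | Jp
      · rw [← h, mul_zero]; exact integral_nonneg g0
      have cP : Continuous (Pr g) := (Pr_sm sg).continuous
      have PJ : ∀ x, Pr g x ≤ J := fun x => by rw [hJ]; exact P1 x
      have Px : ∀ x, 0 ≤ Pr g x * x := fun x => by
        rcases le_total x 0 with h | h
        · rw [Pn _ h, zero_mul]
        · exact mul_nonneg (P0 _) h
      have G0 : 0 ≤ ∫ x, g x ∂ν := integral_nonneg g0
      have step : ∀ N : ℕ, (J * (b * (ν (Set.Icc b N)).toReal)) ^ 3 ≤ D * J ^ 2 * ∫ x, g x ∂ν := by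
        intro N
        obtain ⟨F, hF⟩ : ∃ F : ℝ → ℝ, F = fun t => Pr g t * t * cut N t := ⟨_, rfl⟩
        have cF : Continuous F := by rw [hF]; exact (cP.mul continuous_id).mul (cut_co N)
        have sF : HasCompactSupport F := by rw [hF]; exact (cut_s N).mul_left
        have F0 : ∀ x, 0 ≤ F x := fun x => by rw [hF]; exact mul_nonneg (Px x) (cut_0 N x)
        have F1 : ∀ x, F x ≤ Pr g x * x := fun x => by
          rw [hF]; show Pr g x * x * cut N x ≤ Pr g x * x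
          have := mul_le_mul_of_nonneg_left (cut_1 N x) (Px x)
          linarith
        have lF := lim' hg cF sF
        have lg := lim' hg sg.continuous cg
        have a0 : 0 ≤ ∫ x, F x ∂ν := integral_nonneg F0
        have lowN : J * (b * (ν (Set.Icc b N)).toReal) ≤ ∫ x, F x ∂ν := by
          have iF : Integrable F ν := cF.integrable_of_hasCompactSupport sF
          have e1 : ∫ _ in Set.Icc b (N : ℝ), (J * b) ∂ν = J * (b * (ν (Set.Icc b N)).toReal) := by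
            rw [setIntegral_const, smul_eq_mul]
            show (ν (Set.Icc b (N : ℝ))).toReal * (J * b) = _
            ring
          rw [← e1]
          refine le_trans (setIntegral_mono_on (integrableOn_const (measure_ne_top ν _))
            iF.integrableOn measurableSet_Icc fun x hx => ?_)
            (setIntegral_le_integral iF (ae_of_all _ F0))
          rw [hF]
          show J * b ≤ Pr g x * x * cut N x
          have xb : b ≤ x := hx.1
          have ax : |x| ≤ N := by rw [abs_of_pos (b0.trans_le xb)]; exact hx.2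
          rw [cut_e ax, mul_one, Pb x b0 xb, ← hJ]
          exact mul_le_mul_of_nonneg_left xb J0
        rcases a0.eq_or_lt with h | ap
        · have : J * (b * (ν (Set.Icc b N)).toReal) ≤ 0 := by rw [h]; exact lowN
          have h2 : 0 ≤ J * (b * (ν (Set.Icc b N)).toReal) :=
            mul_nonneg J0 (mul_nonneg b0.le ENNReal.toReal_nonneg)
          have h3 : J * (b * (ν (Set.Icc b N)).toReal) = 0 := le_antisymm this h2
          rw [h3]
          have : 0 ≤ D * J ^ 2 * ∫ x, g x ∂ν := by positivity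
          simpa using this
        · have hε : 0 < (∫ x, F x ∂ν) / (2 * J) := by positivity
          have ev1 := hσ.tendsto_atTop.eventually (S1 H hSc hSB M01 hη hA' m0 hm C0 sk k4 k2 k1 k3 hε)
          have ev2 := lF.eventually (lt_mem_nhds (by linarith : (∫ x, F x ∂ν) / 2 < ∫ x, F x ∂ν))
          have ev : ∀ᶠ n in atTop, (∫ z, φ (σ n) z * (ρ z * F (u (σ n) z))) ^ 3 ≤
              D * J ^ 2 * ∫ z, φ (σ n) z * (ρ z * g (u (σ n) z)) := by
            filter_upwards [ev1, ev2, tst] with n e1 e2 hφ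
            have c1 := mono_co H hφ cF (cP.mul continuous_id) F1 (σ n)
            have e3 := e1 g J sg g0 P0 PJ Jp (by
              refine le_trans ?_ (e2.le.trans c1)
              exact le_of_eq (by field_simp))
            rw [hD]
            refine le_trans (pow_le_pow_left₀ ?_ c1 3) e3
            exact le_trans (by positivity) e2.le
          have l3 := le_of_tendsto_of_tendsto (lF.pow 3) (lg.const_mul (D * J ^ 2)) ev
          exact (pow_le_pow_left₀ (mul_nonneg J0 (mul_nonneg b0.le ENNReal.toReal_nonneg))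
            lowN 3).trans l3
      have step2 : (J * y) ^ 3 ≤ D * J ^ 2 * ∫ x, g x ∂ν := by
        have mon : Monotone (fun N : ℕ => Set.Icc b (N : ℝ)) := fun N M h =>
          Set.Icc_subset_Icc_right (by exact_mod_cast h)
        have un : ⋃ N : ℕ, Set.Icc b (N : ℝ) = Set.Ici b := by
          ext x; simp only [Set.mem_iUnion, Set.mem_Icc, Set.mem_Ici]
          constructor
          · rintro ⟨N, h, _⟩; exact h
          · intro h
            obtain ⟨N, hN⟩ := exists_nat_ge x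
            exact ⟨N, h, hN⟩
        have t1 := tendsto_measure_iUnion_atTop (μ := ν) mon
        rw [un] at t1
        have t2 := (ENNReal.tendsto_toReal (measure_ne_top ν (Set.Ici b))).comp t1
        have t3 := ((t2.const_mul b).const_mul J).pow 3
        rw [hy]
        exact le_of_tendsto' t3 fun N => step N
      rw [div_mul_eq_mul_div, div_le_iff₀ D0]
      have e : (J * y) ^ 3 = J ^ 2 * (y ^ 3 * J) := by ring
      rw [e] at step2
      have e' : D * J ^ 2 * (∫ x, g x ∂ν) = J ^ 2 * ((∫ x, g x ∂ν) * D) := by ring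
      rw [e'] at step2
      exact le_of_mul_le_mul_left step2 (by positivity)) A hA
  have k5 := ENNReal.toReal_mono (measure_ne_top ν A) key
  rw [ENNReal.toReal_mul, ENNReal.toReal_ofReal (by positivity), div_mul_eq_mul_div,
    div_le_iff₀ D0] at k5
  linarith

/-- limit laws have mean zero -/
theorem mean (H : Hyp Ω ρ lam u)
    {S : Set ℂ} (hSc : IsCompact S) (hSB : S ⊆ Ω) {M0 : ℝ} (M01 : 1 ≤ M0) {φ : ℕ → ℂ → ℝ}
    {η : ℕ → ℝ} (hη : Tendsto η atTop (𝓝 0))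
    (hA' : ∀ᶠ n in atTop, Adm Ω S (√(lam n))⁻¹ (η n) M0 (φ n)) {m : ℝ} (m0 : 0 < m)
    (hm : ∀ᶠ n in atTop, ∫ z, φ n z * (ρ z * u n z ^ 2) ≤ m)
    (ν : Measure ℝ) [IsFiniteMeasure ν] (hν : ILim φ ρ u ν) :
    Integrable (fun x => x) ν ∧ ∫ x, x ∂ν = 0 := by
  obtain ⟨σ, hσ, hg⟩ := hν
  have tst : ∀ᶠ n in atTop, Test Ω (φ (σ n)) := (hσ.tendsto_atTop.eventually hA').mono
    fun n ad => ⟨ad.tf.1, ad.tf.2.1, ad.tf.2.2, ad.pos⟩
  have hm' := hσ.tendsto_atTop.eventually hm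
  have c2 : ∀ N : ℕ, Continuous (fun x : ℝ => x ^ 2 * cut N x) := fun N =>
    (continuous_pow 2).mul (cut_co N)
  have s2 : ∀ N : ℕ, HasCompactSupport (fun x : ℝ => x ^ 2 * cut N x) := fun N =>
    (cut_s N).mul_left
  have c1 : ∀ N : ℕ, Continuous (fun x : ℝ => x * cut N x) := fun N =>
    continuous_id.mul (cut_co N)
  have s1 : ∀ N : ℕ, HasCompactSupport (fun x : ℝ => x * cut N x) := fun N =>
    (cut_s N).mul_left
  have b2 : ∀ N : ℕ, ∫ x, x ^ 2 * cut N x ∂ν ≤ m := by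
    intro N
    refine le_of_tendsto (lim' hg (c2 N) (s2 N)) ((hm'.and tst).mono fun n hnn => ?_)
    obtain ⟨hn, hφ⟩ := hnn
    refine le_trans (mono_co H hφ (c2 N) (continuous_pow 2) (fun x => ?_) (σ n)) hn
    have := mul_le_mul_of_nonneg_left (cut_1 N x) (sq_nonneg x)
    linarith
  have ptl : ∀ x : ℝ, ∀ᶠ N : ℕ in atTop, cut N x = 1 := fun x => by
    obtain ⟨N, hN⟩ := exists_nat_ge |x|
    filter_upwards [eventually_ge_atTop N] with M hM
    exact cut_e (hN.trans (by exact_mod_cast hM))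
  have fat : ∫⁻ x, ENNReal.ofReal (x ^ 2) ∂ν ≤ ENNReal.ofReal m := by
    have e1 : ∀ x : ℝ, ENNReal.ofReal (x ^ 2) =
        liminf (fun N : ℕ => ENNReal.ofReal (x ^ 2 * cut N x)) atTop := fun x => by
      have : Tendsto (fun N : ℕ => ENNReal.ofReal (x ^ 2 * cut N x)) atTop
          (𝓝 (ENNReal.ofReal (x ^ 2))) :=
        tendsto_const_nhds.congr' ((ptl x).mono fun N hN => by
          show ENNReal.ofReal (x ^ 2) = ENNReal.ofReal (x ^ 2 * cut N x)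
          rw [hN, mul_one])
      exact this.liminf_eq.symm
    have e2 : ∫⁻ x, ENNReal.ofReal (x ^ 2) ∂ν =
        ∫⁻ x, liminf (fun N : ℕ => ENNReal.ofReal (x ^ 2 * cut N x)) atTop ∂ν :=
      lintegral_congr e1
    rw [e2]
    refine (lintegral_liminf_le fun N => (c2 N).measurable.ennreal_ofReal).trans ?_
    have e3 : ∀ N : ℕ, ∫⁻ x, ENNReal.ofReal (x ^ 2 * cut N x) ∂ν ≤ ENNReal.ofReal m := by
      intro N
      rw [← ofReal_integral_eq_lintegral_ofReal ((c2 N).integrable_of_hasCompactSupport (s2 N))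
        (ae_of_all _ fun x => mul_nonneg (sq_nonneg x) (cut_0 N x))]
      exact ENNReal.ofReal_le_ofReal (b2 N)
    exact (liminf_le_liminf (Eventually.of_forall e3)).trans (liminf_const _).le
  have i2 : Integrable (fun x : ℝ => x ^ 2) ν := by
    refine ⟨(continuous_pow 2).aestronglyMeasurable, ?_⟩
    rw [hasFiniteIntegral_iff_ofReal (ae_of_all _ fun x => sq_nonneg x)]
    exact lt_of_le_of_lt fat ENNReal.ofReal_lt_top
  have i1 : Integrable (fun x : ℝ => x) ν := by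
    refine Integrable.mono' ((integrable_const (1 : ℝ)).add i2)
      continuous_id.aestronglyMeasurable (ae_of_all _ fun x => ?_)
    show ‖x‖ ≤ 1 + x ^ 2
    rw [Real.norm_eq_abs, ← sq_abs x]
    nlinarith [sq_nonneg (|x| - 1), abs_nonneg x]
  refine ⟨i1, ?_⟩
  have l1 : Tendsto (fun N : ℕ => ∫ x, x * cut N x ∂ν) atTop (𝓝 (∫ x, x ∂ν)) := by
    refine tendsto_integral_of_dominated_convergence (fun x => |x|)
      (fun N => (c1 N).aestronglyMeasurable) i1.abs (fun N => ae_of_all _ fun x => ?_)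
      (ae_of_all _ fun x => ?_)
    · rw [Real.norm_eq_abs, abs_mul, abs_of_nonneg (cut_0 N x)]
      have := mul_le_mul_of_nonneg_left (cut_1 N x) (abs_nonneg x)
      linarith
    · exact tendsto_const_nhds.congr' ((ptl x).mono fun N hN => by
        show x = x * cut N x
        rw [hN, mul_one])
  have l2 : ∀ N : ℕ, |∫ x, x * cut (N + 1) x ∂ν| ≤ m / ((N : ℝ) + 1) := by
    intro N
    have t1 := (lim' hg (c1 (N + 1)) (s1 (N + 1))).abs
    have t2 := ((S2 H hSc hSB M01 hη hA').comp hσ.tendsto_atTop).abs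
    rw [abs_zero] at t2
    have t3 := t2.add_const (m / ((N : ℝ) + 1))
    rw [zero_add] at t3
    refine le_of_tendsto_of_tendsto t1 t3 ((hm'.and tst).mono fun n hnn => ?_)
    obtain ⟨hn, hφ⟩ := hnn
    show |∫ z, φ (σ n) z * (ρ z * (u (σ n) z * cut (N + 1) (u (σ n) z)))| ≤
      |∫ z, φ (σ n) z * (ρ z * u (σ n) z)| + m / ((N : ℝ) + 1)
    have q0 : (0 : ℝ) < (N : ℝ) + 1 := by positivity
    have pw : ∀ x : ℝ, |x - x * cut (N + 1) x| ≤ x ^ 2 / ((N : ℝ) + 1) := by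
      intro x
      by_cases hx : |x| ≤ ((N + 1 : ℕ) : ℝ)
      · rw [cut_e hx, mul_one, sub_self, abs_zero]; positivity
      · have hx' := not_le.1 hx
        push_cast at hx'
        have e1 : x - x * cut (N + 1) x = x * (1 - cut (N + 1) x) := by ring
        rw [e1, abs_mul, abs_of_nonneg (by linarith [cut_1 (N + 1) x] : 0 ≤ 1 - cut (N + 1) x)]
        have e2 : |x| * (1 - cut (N + 1) x) ≤ |x| := by
          have := mul_nonneg (abs_nonneg x) (cut_0 (N + 1) x)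
          linarith
        refine e2.trans ?_
        rw [le_div_iff₀ q0, ← sq_abs x]
        nlinarith [abs_nonneg x]
    have cc : Continuous (fun x : ℝ => x - x * cut (N + 1) x) :=
      continuous_id.sub (c1 (N + 1))
    have sub : (∫ z, φ (σ n) z * (ρ z * (u (σ n) z * cut (N + 1) (u (σ n) z)))) =
        (∫ z, φ (σ n) z * (ρ z * u (σ n) z)) -
        ∫ z, φ (σ n) z * (ρ z * (u (σ n) z - u (σ n) z * cut (N + 1) (u (σ n) z))) := by
      have j1 := int_co H hφ (g := fun x => x) continuous_id (σ n)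
      have j2 := int_co H hφ cc (σ n)
      rw [← integral_sub j1 j2]
      congr 1; funext z; ring
    have cq : Continuous (fun x : ℝ => x ^ 2 / ((N : ℝ) + 1)) := (continuous_pow 2).div_const _
    have up := mono_co H hφ cc cq (fun x => (le_abs_self _).trans (pw x)) (σ n)
    have dn := mono_co H hφ (g := fun x => -(x - x * cut (N + 1) x)) cc.neg cq
      (fun x => (neg_le_abs _).trans (pw x)) (σ n)
    have eq2 : ∫ z, φ (σ n) z * (ρ z * (u (σ n) z ^ 2 / ((N : ℝ) + 1))) =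
        (∫ z, φ (σ n) z * (ρ z * u (σ n) z ^ 2)) / ((N : ℝ) + 1) := by
      rw [← integral_div]
      congr 1; funext z; ring
    have eq3 : ∫ z, φ (σ n) z * (ρ z * -(u (σ n) z - u (σ n) z * cut (N + 1) (u (σ n) z))) =
        -∫ z, φ (σ n) z * (ρ z * (u (σ n) z - u (σ n) z * cut (N + 1) (u (σ n) z))) := by
      rw [← integral_neg]
      congr 1; funext z; ring
    rw [eq2] at up dn
    rw [eq3] at dn
    have md := div_le_div_of_nonneg_right hn q0.le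
    rw [sub]
    refine (abs_sub _ _).trans ?_
    have : |∫ z, φ (σ n) z * (ρ z * (u (σ n) z - u (σ n) z * cut (N + 1) (u (σ n) z)))| ≤
        m / ((N : ℝ) + 1) := abs_le.2 ⟨by linarith, by linarith⟩
    linarith
  have l3 : Tendsto (fun N : ℕ => m / ((N : ℝ) + 1)) atTop (𝓝 0) := by
    have := (tendsto_one_div_add_atTop_nhds_zero_nat (𝕜 := ℝ)).const_mul m
    rw [mul_zero] at this
    refine this.congr fun N => by ring
  have l4 : Tendsto (fun N : ℕ => ∫ x, x * cut (N + 1) x ∂ν) atTop (𝓝 0) :=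
    squeeze_zero_norm (fun N => by rw [Real.norm_eq_abs]; exact l2 N) l3
  exact tendsto_nhds_unique (l1.comp (tendsto_add_atTop_nat 1)) l4

end

end

end Pool.Agent.Y139.JL
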