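import Pool.Agent.Y139.JL.B

/-!
Project JL (helper139): test functions composed with slowly varying maps; eigenfunctions of a much
lower frequency vary slowly.
-/

set_option autoImplicit false
open MeasureTheory Filter Topology Complex
open scoped ContDiff ENNReal

namespace Pool.Agent.Y139.JL

open Pool.Agent.W745.RW Pool.Agent.TH294.RS Pool.Agent.TH294.RG Pool.Agent.TH421.DF
open Pool.Agent.TH421.AC Pool.Agent.Results.MP_a52643_an.AbsoluteContinuity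
open Pool.Agent.Y139.PD hiding seq_bd S1 S2 halfA halfB mean lim' L1 L2 L3 L4

noncomputable section

/-- slowly varying maps: `|∇ G n| = o(√(lam n))`, locally uniformly -/
def Slow (Ω : Set ℂ) (lam : ℕ → ℝ) {k : ℕ} (G : ℕ → ℂ → (Fin k → ℝ)) : Prop :=
  ∀ K : Set ℂ, IsCompact K → K ⊆ Ω → ∃ δ : ℕ → ℝ, Tendsto δ atTop (𝓝 0) ∧
    ∀ᶠ n in atTop, ∀ z ∈ K, ‖fderiv ℝ (G n) z‖ ≤ δ n * √(lam n)

/-- nonnegative smooth functions of the values of `G`, with compact support -/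
def TestE {k : ℕ} (θ : (Fin k → ℝ) → ℝ) : Prop :=
  ContDiff ℝ ∞ θ ∧ HasCompactSupport θ ∧ ∀ y, 0 ≤ θ y

variable {Ω : Set ℂ} {ρ : ℂ → ℝ} {lam : ℕ → ℝ}

theorem adm (oΩ : IsOpen Ω) (ll : Tendsto lam atTop atTop) {k : ℕ}
    {G : ℕ → ℂ → (Fin k → ℝ)} (sG : ∀ n, ContDiffOn ℝ ∞ (G n) Ω) (hG : Slow Ω lam G)
    {ψ : ℂ → ℝ} (hψ : Test Ω ψ) {θ : (Fin k → ℝ) → ℝ} (hθ : TestE θ) :
    ∃ (M0 : ℝ) (η : ℕ → ℝ), 1 ≤ M0 ∧ Tendsto η atTop (𝓝 0) ∧ ∀ᶠ n in atTop,
      Adm Ω (tsupport ψ) (√(lam n))⁻¹ (η n) M0 (fun z => ψ z * θ (G n z)) := by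
  obtain ⟨δ, hδ, hev⟩ := hG (tsupport ψ) hψ.2.1 hψ.2.2.1
  have cψ' : ∀ v : ℂ, Continuous (fun z => fderiv ℝ ψ z v) := fun v =>
    ((hψ.1.fderiv_right (m := ∞) le_rfl).clm_apply contDiff_const).continuous
  obtain ⟨M, M1, hM⟩ := bds hψ.2.1 [ψ, fun z => fderiv ℝ ψ z 1, fun z => fderiv ℝ ψ z I] (by
    simp only [List.mem_cons, List.not_mem_nil, or_false, forall_eq_or_imp, forall_eq]
    exact ⟨hψ.1.continuous.continuousOn, (cψ' 1).continuousOn, (cψ' I).continuousOn⟩)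
  simp only [List.mem_cons, List.not_mem_nil, or_false, forall_eq_or_imp, forall_eq] at hM
  obtain ⟨m1, m2, m3⟩ := hM
  obtain ⟨T, hT⟩ := hθ.2.1.exists_bound_of_continuous hθ.1.continuous
  obtain ⟨T', hT'⟩ := (hθ.2.1.fderiv (𝕜 := ℝ)).exists_bound_of_continuous
    (hθ.1.continuous_fderiv (by simp))
  obtain ⟨U, hU⟩ : ∃ U : ℝ, U = |T| + |T'| + 1 := ⟨_, rfl⟩
  have U1 : 1 ≤ U := by rw [hU]; linarith [abs_nonneg T, abs_nonneg T']
  have TU : ∀ y, |θ y| ≤ U := fun y => by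
    have := (hT y).trans (le_abs_self T)
    rw [Real.norm_eq_abs] at this
    rw [hU]; linarith [abs_nonneg T']
  have TU' : ∀ y, ‖fderiv ℝ θ y‖ ≤ U := fun y => by
    have := (hT' y).trans (le_abs_self T')
    rw [hU]; linarith [abs_nonneg T]
  have MU : 1 ≤ M * U := one_le_mul_of_one_le_of_one_le M1 U1
  have η0 : Tendsto (fun n => (√(lam n))⁻¹ + |δ n|) atTop (𝓝 0) := by
    have h1 := tendsto_inv_atTop_zero.comp (Real.tendsto_sqrt_atTop.comp ll)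
    have h2 := h1.add hδ.abs
    rw [abs_zero, add_zero] at h2
    exact h2
  refine ⟨M * U, fun n => (√(lam n))⁻¹ + |δ n|, MU, η0, ?_⟩
  filter_upwards [hev, ll.eventually_ge_atTop 1] with n hn ln
  have sl : 0 < √(lam n) := Real.sqrt_pos.2 (by linarith)
  have hp : 0 < (√(lam n))⁻¹ := inv_pos.2 sl
  have dd : ∀ v : ℂ, ‖v‖ = 1 → ∀ z ∈ tsupport ψ, |fderiv ℝ ψ z v| ≤ M →
      |d (√(lam n))⁻¹ v (fun z => ψ z * θ (G n z)) z| ≤ ((√(lam n))⁻¹ + |δ n|) * (M * U) := by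
    intro v hv z hz hb
    have hzΩ := hψ.2.2.1 hz
    have dG : DifferentiableAt ℝ (G n) z :=
      ((sG n).contDiffAt (oΩ.mem_nhds hzΩ)).differentiableAt (by simp)
    have dθ : DifferentiableAt ℝ θ (G n z) := hθ.1.differentiable (by simp) _
    have e1 := d_mul (f := ψ) (g := fun z => θ (G n z)) (hψ.1.differentiable (by simp) z)
      (dθ.comp z dG) (√(lam n))⁻¹ v
    have e2 : d (√(lam n))⁻¹ v (fun z => θ (G n z)) z =
        (√(lam n))⁻¹ * fderiv ℝ θ (G n z) (fderiv ℝ (G n) z v) := by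
      unfold d
      have := fderiv_comp z dθ dG
      have e : fderiv ℝ (fun z => θ (G n z)) z = (fderiv ℝ θ (G n z)).comp (fderiv ℝ (G n) z) :=
        this
      rw [e]
      rfl
    rw [e1, e2]
    have b1 : |d (√(lam n))⁻¹ v ψ z * θ (G n z)| ≤ (√(lam n))⁻¹ * M * U := by
      rw [abs_mul]
      exact mul_le_mul (absd hp hb) (TU _) (abs_nonneg _) (by positivity)
    have b3 : ‖fderiv ℝ θ (G n z) (fderiv ℝ (G n) z v)‖ ≤ U * (|δ n| * √(lam n)) := by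
      have c1 := (fderiv ℝ θ (G n z)).le_opNorm (fderiv ℝ (G n) z v)
      have c2 := (fderiv ℝ (G n) z).le_opNorm v
      rw [hv, mul_one] at c2
      have c3 : ‖fderiv ℝ (G n) z v‖ ≤ |δ n| * √(lam n) :=
        (c2.trans (hn z hz)).trans (mul_le_mul_of_nonneg_right (le_abs_self _) sl.le)
      exact c1.trans (mul_le_mul (TU' _) c3 (norm_nonneg _) (by linarith))
    have b2 : |ψ z * ((√(lam n))⁻¹ * fderiv ℝ θ (G n z) (fderiv ℝ (G n) z v))| ≤
        M * (U * |δ n|) := by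
      rw [abs_mul, abs_mul, abs_of_pos hp, ← Real.norm_eq_abs (fderiv ℝ θ (G n z) _)]
      have c4 : (√(lam n))⁻¹ * ‖fderiv ℝ θ (G n z) (fderiv ℝ (G n) z v)‖ ≤ U * |δ n| := by
        have := mul_le_mul_of_nonneg_left b3 hp.le
        have e : (√(lam n))⁻¹ * (U * (|δ n| * √(lam n))) = U * |δ n| := by
          field_simp
        rwa [e] at this
      exact mul_le_mul (m1 z hz) c4 (by positivity) (by linarith)
    refine (abs_add_le _ _).trans ?_
    have e : ((√(lam n))⁻¹ + |δ n|) * (M * U) = (√(lam n))⁻¹ * M * U + M * (U * |δ n|) := by ring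
    rw [e]
    exact add_le_add b1 b2
  refine ⟨hp, by linarith [abs_nonneg (δ n)], ?_, fun z => mul_nonneg (hψ.2.2.2 z) (hθ.2.2 _),
    tsupport_mul_subset_left, fun z hz => ?_, fun z hz => dd 1 (by simp) z hz (m2 z hz),
    fun z hz => dd I (by simp) z hz (m3 z hz)⟩
  · exact TF.mulc oΩ ⟨hψ.1, hψ.2.1, hψ.2.2.1⟩ (hθ.1.comp_contDiffOn (sG n))
  · rw [abs_mul]
    exact mul_le_mul (m1 z hz) (TU _) (abs_nonneg _) (by linarith)

/-- eigenfunctions of much lower frequency vary slowly -/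
theorem slow_eig (oΩ : IsOpen Ω) (sρ : ContDiffOn ℝ ∞ ρ Ω) (ll : Tendsto lam atTop atTop)
    {μ : ℕ → ℝ} (μ0 : ∀ n, 0 ≤ μ n) (hμ : Tendsto (fun n => μ n ^ 3 / lam n) atTop (𝓝 0))
    {g : ℕ → ℂ → ℝ} (sg : ∀ n, ContDiffOn ℝ ∞ (g n) Ω)
    (eq : ∀ n, ∀ z ∈ Ω, lapl (g n) z + μ n * (ρ z * g n z) = 0) (bd : LocL2 Ω g)
    {K : Set ℂ} (hK : IsCompact K) (hKΩ : K ⊆ Ω) :
    ∃ δ : ℕ → ℝ, Tendsto δ atTop (𝓝 0) ∧ ∀ᶠ n in atTop, ∀ z ∈ K,
      |fderiv ℝ (g n) z 1| ≤ δ n * √(lam n) ∧ |fderiv ℝ (g n) z I| ≤ δ n * √(lam n) := by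
  obtain ⟨R, hR⟩ : ∃ R : ℕ → ℝ, ∀ n, R n = max 1 (√(lam n)) := ⟨_, fun _ => rfl⟩
  have R1 : ∀ n, 1 ≤ R n := fun n => by rw [hR]; exact le_max_left _ _
  have Rl : Tendsto R atTop atTop :=
    tendsto_atTop_mono (fun n => by rw [hR]; exact le_max_right _ _)
      (Real.tendsto_sqrt_atTop.comp ll)
  obtain ⟨w, hw⟩ : ∃ w : ℕ → ℝ, ∀ n, w n = √(√(R n)) := ⟨_, fun _ => rfl⟩
  have wl : Tendsto w atTop atTop :=
    (Real.tendsto_sqrt_atTop.comp (Real.tendsto_sqrt_atTop.comp Rl)).congr fun n => (hw n).symm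
  have w0 : ∀ n, 0 < w n := fun n => by
    rw [hw]
    exact Real.sqrt_pos.2 (Real.sqrt_pos.2 (by linarith [R1 n]))
  have w4 : ∀ n, w n ^ 4 = R n := fun n => by
    have e : w n ^ 4 = (w n ^ 2) ^ 2 := by ring
    rw [e, hw, Real.sq_sqrt (Real.sqrt_nonneg _), Real.sq_sqrt (by linarith [R1 n])]
  obtain ⟨h, hh⟩ : ∃ h : ℕ → ℝ, ∀ n, h n = (max (√(μ n)) (w n))⁻¹ := ⟨_, fun _ => rfl⟩
  have m0 : ∀ n, 0 < max (√(μ n)) (w n) := fun n => lt_of_lt_of_le (w0 n) (le_max_right _ _)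
  have hp : ∀ n, 0 < h n := fun n => by rw [hh]; exact inv_pos.2 (m0 n)
  have h0 : Tendsto h atTop (𝓝 0) :=
    (tendsto_inv_atTop_zero.comp (tendsto_atTop_mono (fun n => le_max_right (√(μ n)) (w n))
      wl)).congr fun n => (hh n).symm
  have hi : ∀ n, h n * max (√(μ n)) (w n) = 1 := fun n => by
    rw [hh]; exact inv_mul_cancel₀ (m0 n).ne'
  have c1 : ∀ n, |h n ^ 2 * μ n| ≤ 1 := fun n => by
    have e : h n ^ 2 * μ n = (h n * √(μ n)) ^ 2 := by rw [mul_pow, Real.sq_sqrt (μ0 n)]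
    rw [e, abs_of_nonneg (sq_nonneg _)]
    refine pow_le_one₀ (mul_nonneg (hp n).le (Real.sqrt_nonneg _)) ?_
    rw [← hi n]
    exact mul_le_mul_of_nonneg_left (le_max_left _ _) (hp n).le
  have lb : LB Ω 2 (cx g) := by
    refine ⟨fun n => Complex.ofRealCLM.contDiff.comp_contDiffOn (sg n), fun K hK hKB => ?_⟩
    obtain ⟨C, hC⟩ := bd K hK hKB
    refine ⟨C, hC.mono fun n hn => ?_⟩
    simp only [cx, Complex.norm_real, Real.norm_eq_abs, sq_abs]
    exact hn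
  have MKg : MK2 Ω h 3 (cx g) := by
    refine mk_sol oΩ hp h0 lb (ρ := fun z => (ρ z : ℂ))
      (Complex.ofRealCLM.contDiff.comp_contDiffOn sρ) (c := fun n => h n ^ 2 * μ n) (M := 1)
      (Eventually.of_forall c1) ?_ 3
    intro n z hz
    have e1 : lap (cx g n) z = ((lapl (g n) z : ℝ) : ℂ) := lap_re oΩ (sg n) hz
    simp only [Pool.Agent.TH294.RS.hL]
    rw [e1]
    have e2 : lapl (g n) z = -(μ n * (ρ z * g n z)) := by linarith [eq n z hz]
    rw [e2]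
    simp only [cx]
    push_cast
    ring
  have SKg := mk_sk (k := 1) oΩ hp h0 MKg
  obtain ⟨C1, C10, hC1⟩ := SKg.2.1.sp.bd K hK hKΩ
  obtain ⟨C2, C20, hC2⟩ := SKg.2.2.sp.bd K hK hKΩ
  have q1 : Tendsto (fun n => √(μ n) ^ 3 / R n) atTop (𝓝 0) := by
    have t1 := (Real.continuous_sqrt.tendsto 0).comp hμ
    rw [Real.sqrt_zero] at t1
    refine t1.congr' ?_
    filter_upwards [ll.eventually_ge_atTop 1] with n ln
    have l0 : 0 ≤ lam n := by linarith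
    have e1 : R n = √(lam n) := by
      rw [hR]
      refine max_eq_right ?_
      rw [← Real.sqrt_one]
      exact Real.sqrt_le_sqrt ln
    show √(μ n ^ 3 / lam n) = _
    rw [e1, Real.sqrt_div' _ l0]
    congr 1
    have e2 : μ n ^ 3 = (√(μ n) ^ 3) ^ 2 := by
      have : (√(μ n) ^ 3) ^ 2 = (√(μ n) ^ 2) ^ 3 := by ring
      rw [this, Real.sq_sqrt (μ0 n)]
    rw [e2, Real.sqrt_sq (pow_nonneg (Real.sqrt_nonneg _) 3)]
  have q2 : Tendsto (fun n => (w n)⁻¹) atTop (𝓝 0) := tendsto_inv_atTop_zero.comp wl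
  refine ⟨fun n => (C1 + C2) * (√(μ n) ^ 3 / R n + (w n)⁻¹), ?_, ?_⟩
  · have := (q1.add q2).const_mul (C1 + C2)
    rw [add_zero, mul_zero] at this
    exact this
  · filter_upwards [hC1, hC2, ll.eventually_ge_atTop 1] with n a1 a2 ln z hz
    have e1 : R n = √(lam n) := by
      rw [hR]
      refine max_eq_right ?_
      rw [← Real.sqrt_one]
      exact Real.sqrt_le_sqrt ln
    have R0 : 0 < R n := by linarith [R1 n]
    have key : ∀ (v : ℂ) (C : ℝ), C ≤ C1 + C2 → 0 ≤ C → ‖hd h v (cx g) n z‖ * h n ^ 2 ≤ C →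
        |fderiv ℝ (g n) z v| ≤ (C1 + C2) * (√(μ n) ^ 3 / R n + (w n)⁻¹) * √(lam n) := by
      intro v C hC C0 hb
      rw [hd_cx oΩ sg v n (hKΩ hz)] at hb
      simp only [cx, rd, Complex.norm_real, Real.norm_eq_abs] at hb
      rw [abs_mul, abs_of_pos (hp n)] at hb
      obtain ⟨X, hX⟩ : ∃ X : ℝ, X = max (√(μ n)) (w n) := ⟨_, rfl⟩
      have X0 : 0 < X := by rw [hX]; exact m0 n
      have hX1 : h n * X = 1 := by rw [hX]; exact hi n
      have b1 : |fderiv ℝ (g n) z v| ≤ C * X ^ 3 := by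
        have := mul_le_mul_of_nonneg_right hb (pow_nonneg X0.le 3)
        have e : h n * |fderiv ℝ (g n) z v| * h n ^ 2 * X ^ 3 =
            |fderiv ℝ (g n) z v| * (h n * X) ^ 3 := by ring
        rw [e, hX1, one_pow, mul_one] at this
        exact this
      have b2 : X ^ 3 ≤ √(μ n) ^ 3 + w n ^ 3 := by
        have s0 := Real.sqrt_nonneg (μ n)
        rcases le_total (√(μ n)) (w n) with hle | hle
        · rw [hX, max_eq_right hle]
          linarith [pow_nonneg s0 3]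
        · rw [hX, max_eq_left hle]
          linarith [pow_nonneg (w0 n).le 3]
      have e3 : (√(μ n) ^ 3 / R n + (w n)⁻¹) * √(lam n) = √(μ n) ^ 3 + w n ^ 3 := by
        rw [← e1]
        have e4 : (w n)⁻¹ * R n = w n ^ 3 := by
          rw [← w4 n]
          have := (w0 n).ne'
          field_simp
        rw [add_mul, div_mul_cancel₀ _ R0.ne', e4]
      rw [mul_assoc, e3]
      exact b1.trans (mul_le_mul hC b2 (pow_nonneg X0.le 3) (by linarith))
    exact ⟨key 1 C1 (by linarith) C10 (a1 z hz), key I C2 (by linarith) C20 (a2 z hz)⟩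

theorem slow_tuple (oΩ : IsOpen Ω) (sρ : ContDiffOn ℝ ∞ ρ Ω) (ll : Tendsto lam atTop atTop)
    {k : ℕ} {μ : Fin k → ℕ → ℝ} (μ0 : ∀ i n, 0 ≤ μ i n)
    (hμ : ∀ i, Tendsto (fun n => μ i n ^ 3 / lam n) atTop (𝓝 0))
    {g : Fin k → ℕ → ℂ → ℝ} (sg : ∀ i n, ContDiffOn ℝ ∞ (g i n) Ω)
    (eq : ∀ i n, ∀ z ∈ Ω, lapl (g i n) z + μ i n * (ρ z * g i n z) = 0)
    (bd : ∀ i, LocL2 Ω (g i)) : Slow Ω lam (fun n z i => g i n z) := by
  intro K hK hKΩ
  choose δ hδ hev using fun i => slow_eig oΩ sρ ll (μ0 i) (hμ i) (sg i) (eq i) (bd i) hK hKΩ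
  refine ⟨fun n => 2 * ∑ i, |δ i n|, ?_, ?_⟩
  · have h1 : Tendsto (fun n => ∑ i, |δ i n|) atTop (𝓝 (∑ _i : Fin k, (0 : ℝ))) :=
      tendsto_finsetSum _ fun i _ => by
        have := (hδ i).abs
        rwa [abs_zero] at this
    have h2 := h1.const_mul 2
    simpa using h2
  · filter_upwards [eventually_all.2 hev] with n hn z hz
    have dg : ∀ i, DifferentiableAt ℝ (g i n) z := fun i =>
      ((sg i n).contDiffAt (oΩ.mem_nhds (hKΩ hz))).differentiableAt (by simp)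
    have e : fderiv ℝ (fun z i => g i n z) z = ContinuousLinearMap.pi fun i => fderiv ℝ (g i n) z :=
      fderiv_pi dg
    have s0 := Real.sqrt_nonneg (lam n)
    have S0 : 0 ≤ ∑ i, |δ i n| := Finset.sum_nonneg fun i _ => abs_nonneg _
    show ‖fderiv ℝ (fun z i => g i n z) z‖ ≤ _
    rw [e]
    refine ContinuousLinearMap.opNorm_le_bound _ (by positivity) fun v => ?_
    refine (pi_norm_le_iff_of_nonneg (by positivity)).2 fun i => ?_
    show ‖fderiv ℝ (g i n) z v‖ ≤ _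
    have ev : v = v.re • (1 : ℂ) + v.im • I := by
      rw [real_smul, real_smul, mul_one]
      exact (re_add_im v).symm
    obtain ⟨p1, p2⟩ := hn i z hz
    have le1 : δ i n ≤ ∑ i, |δ i n| := (le_abs_self _).trans
      (Finset.single_le_sum (f := fun i => |δ i n|) (fun i _ => abs_nonneg _) (Finset.mem_univ i))
    have p3 : δ i n * √(lam n) ≤ (∑ i, |δ i n|) * √(lam n) := mul_le_mul_of_nonneg_right le1 s0
    have e5 : fderiv ℝ (g i n) z v = v.re * fderiv ℝ (g i n) z 1 + v.im * fderiv ℝ (g i n) z I := by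
      conv_lhs => rw [ev]
      rw [map_add, map_smul, map_smul, smul_eq_mul, smul_eq_mul]
    rw [e5, Real.norm_eq_abs]
    refine (abs_add_le _ _).trans ?_
    rw [abs_mul, abs_mul]
    have r1 := abs_re_le_norm v
    have r2 := abs_im_le_norm v
    have t1 : |v.re| * |fderiv ℝ (g i n) z 1| ≤ ‖v‖ * ((∑ i, |δ i n|) * √(lam n)) :=
      mul_le_mul r1 (p1.trans p3) (abs_nonneg _) (norm_nonneg _)
    have t2 : |v.im| * |fderiv ℝ (g i n) z I| ≤ ‖v‖ * ((∑ i, |δ i n|) * √(lam n)) :=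
      mul_le_mul r2 (p2.trans p3) (abs_nonneg _) (norm_nonneg _)
    linarith

end

end Pool.Agent.Y139.JL
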