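import Pool.Agent.Y139.JL.C

/-!
Project JL (helper139): joint limit laws, slices over Borel sets of values of the slow map.
-/

set_option autoImplicit false
open MeasureTheory Filter Topology Complex
open scoped ContDiff ENNReal

namespace Pool.Agent.Y139.JL

open Pool.Agent.W745.RW Pool.Agent.TH294.RS Pool.Agent.TH294.RG Pool.Agent.TH421.DF
open Pool.Agent.TH421.AC Pool.Agent.Results.MP_a52643_an.AbsoluteContinuity
open Pool.Agent.Y139.PD hiding seq_bd S1 S2 halfA halfB mean lim' L1 L2 L3 L4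

noncomputable section

variable {k : ℕ}

/-- `ν` is the weak limit, along a subsequence, of the joint laws of `u n` and `G n` under the
measure `ψ ρ dz` -/
def JLim (ψ ρ : ℂ → ℝ) (u : ℕ → ℂ → ℝ) (G : ℕ → ℂ → (Fin k → ℝ))
    (ν : Measure (ℝ × (Fin k → ℝ))) : Prop :=
  ∃ σ : ℕ → ℕ, StrictMono σ ∧ ∀ F : ℝ × (Fin k → ℝ) → ℝ, Continuous F → (∃ M, ∀ p, |F p| ≤ M) →
    Tendsto (fun n => ∫ z, ψ z * (F (u (σ n) z, G (σ n) z) * ρ z)) atTop (𝓝 (∫ p, F p ∂ν))

/-- the measure `A ↦ ∫ 1_A(x) θ(y) dν(x, y)` -/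
def wsl (ν : Measure (ℝ × (Fin k → ℝ))) (θ : (Fin k → ℝ) → ℝ) : Measure ℝ :=
  (ν.withDensity (fun p => ENNReal.ofReal (θ p.2))).map Prod.fst

/-- the measure `A ↦ ν(A × B)` -/
def slice (ν : Measure (ℝ × (Fin k → ℝ))) (B : Set (Fin k → ℝ)) : Measure ℝ :=
  (ν.restrict (Prod.snd ⁻¹' B)).map Prod.fst

lemma slice_ap (ν : Measure (ℝ × (Fin k → ℝ))) (B : Set (Fin k → ℝ)) {A : Set ℝ}
    (mA : MeasurableSet A) : slice ν B A = ν (Prod.fst ⁻¹' A ∩ Prod.snd ⁻¹' B) := by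
  unfold slice
  rw [Measure.map_apply measurable_fst mA, Measure.restrict_apply (measurable_fst mA)]

instance slice_fin (ν : Measure (ℝ × (Fin k → ℝ))) [IsFiniteMeasure ν]
    (B : Set (Fin k → ℝ)) : IsFiniteMeasure (slice ν B) := by
  unfold slice
  infer_instance

lemma wsl_ap (ν : Measure (ℝ × (Fin k → ℝ))) {θ : (Fin k → ℝ) → ℝ} {A : Set ℝ}
    (mA : MeasurableSet A) : wsl ν θ A = ∫⁻ p in Prod.fst ⁻¹' A, ENNReal.ofReal (θ p.2) ∂ν := by
  unfold wsl
  rw [Measure.map_apply measurable_fst mA, withDensity_apply _ (measurable_fst mA)]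

lemma wsl_int (ν : Measure (ℝ × (Fin k → ℝ))) {θ : (Fin k → ℝ) → ℝ} (cθ : Continuous θ)
    (θ0 : ∀ y, 0 ≤ θ y) {g : ℝ → ℝ} (cg : Continuous g) :
    ∫ x, g x ∂(wsl ν θ) = ∫ p, g p.1 * θ p.2 ∂ν := by
  unfold wsl
  have m1 : AEMeasurable (fun p : ℝ × (Fin k → ℝ) => ENNReal.ofReal (θ p.2)) ν :=
    ((cθ.measurable.comp measurable_snd).ennreal_ofReal).aemeasurable
  rw [integral_map measurable_fst.aemeasurable cg.aestronglyMeasurable,
    integral_withDensity_eq_integral_toReal_smul₀ m1 (ae_of_all _ fun _ => ENNReal.ofReal_lt_top)]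
  refine integral_congr_ae (ae_of_all _ fun p => ?_)
  show (ENNReal.ofReal (θ p.2)).toReal • g p.1 = g p.1 * θ p.2
  rw [ENNReal.toReal_ofReal (θ0 _), smul_eq_mul, mul_comm]

lemma bdd {θ : (Fin k → ℝ) → ℝ} (hθ : TestE θ) : ∃ T : ℝ, 0 ≤ T ∧ ∀ y, |θ y| ≤ T := by
  obtain ⟨T, hT⟩ := hθ.2.1.exists_bound_of_continuous hθ.1.continuous
  exact ⟨|T|, abs_nonneg _, fun y => (hT y).trans (le_abs_self T)⟩

lemma wsl_fin (ν : Measure (ℝ × (Fin k → ℝ))) [IsFiniteMeasure ν] {θ : (Fin k → ℝ) → ℝ}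
    (hθ : TestE θ) : IsFiniteMeasure (wsl ν θ) := by
  obtain ⟨T, T0, hT⟩ := bdd hθ
  refine ⟨?_⟩
  rw [wsl_ap ν MeasurableSet.univ]
  have h1 : ∫⁻ p in Prod.fst ⁻¹' Set.univ, ENNReal.ofReal (θ p.2) ∂ν ≤
      ∫⁻ p, ENNReal.ofReal T ∂ν := by
    rw [Set.preimage_univ, Measure.restrict_univ]
    exact lintegral_mono fun p => ENNReal.ofReal_le_ofReal ((le_abs_self _).trans (hT _))
  refine lt_of_le_of_lt h1 ?_
  rw [lintegral_const]
  exact ENNReal.mul_lt_top ENNReal.ofReal_lt_top (measure_lt_top ν _)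

lemma wsl_toReal (ν : Measure (ℝ × (Fin k → ℝ))) [IsFiniteMeasure ν] {θ : (Fin k → ℝ) → ℝ}
    (hθ : TestE θ) {A : Set ℝ} (mA : MeasurableSet A) :
    (wsl ν θ A).toReal = ∫ p in Prod.fst ⁻¹' A, θ p.2 ∂ν := by
  rw [wsl_ap ν mA, integral_eq_lintegral_of_nonneg_ae (ae_of_all _ fun p => hθ.2.2 _)
    (hθ.1.continuous.comp continuous_snd).aestronglyMeasurable]

/-- the weighted slices are limits of the laws under the measures `ψ θ(G n) ρ dz` -/
lemma wsl_lim {ψ ρ : ℂ → ℝ} {u : ℕ → ℂ → ℝ} {G : ℕ → ℂ → (Fin k → ℝ)}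
    {ν : Measure (ℝ × (Fin k → ℝ))} (h : JLim ψ ρ u G ν) {θ : (Fin k → ℝ) → ℝ} (hθ : TestE θ) :
    ILim (fun n z => ψ z * θ (G n z)) ρ u (wsl ν θ) := by
  obtain ⟨σ, hσ, hF⟩ := h
  refine ⟨σ, hσ, fun g cg sg => ?_⟩
  obtain ⟨T, T0, hT⟩ := bdd hθ
  obtain ⟨M, hM⟩ := sg.exists_bound_of_continuous cg
  rw [wsl_int ν hθ.1.continuous hθ.2.2 cg]
  have h1 := hF (fun p => g p.1 * θ p.2)
    ((cg.comp continuous_fst).mul (hθ.1.continuous.comp continuous_snd)) ⟨|M| * T, fun p => by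
      rw [abs_mul]
      exact mul_le_mul ((hM _).trans (le_abs_self M)) (hT _) (abs_nonneg _) (abs_nonneg _)⟩
  refine h1.congr fun n => ?_
  congr 1
  funext z
  ring

/-- the first marginal is a limit law -/
lemma marg {ψ ρ : ℂ → ℝ} {u : ℕ → ℂ → ℝ} {G : ℕ → ℂ → (Fin k → ℝ)}
    {ν : Measure (ℝ × (Fin k → ℝ))} (h : JLim ψ ρ u G ν) :
    IsLimitLaw ψ ρ u (ν.map Prod.fst) := by
  obtain ⟨σ, hσ, hF⟩ := h
  refine ⟨σ, hσ, fun g cg sg => ?_⟩
  obtain ⟨M, hM⟩ := sg.exists_bound_of_continuous cg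
  rw [integral_map measurable_fst.aemeasurable cg.aestronglyMeasurable]
  exact hF (fun p => g p.1) (cg.comp continuous_fst) ⟨M, fun p => hM _⟩

/-- reflection in the first coordinate -/
def ng (ν : Measure (ℝ × (Fin k → ℝ))) : Measure (ℝ × (Fin k → ℝ)) :=
  ν.map (fun p => (-p.1, p.2))

lemma ng_me : Measurable (fun p : ℝ × (Fin k → ℝ) => (-p.1, p.2)) :=
  measurable_fst.neg.prodMk measurable_snd

instance ng_fin (ν : Measure (ℝ × (Fin k → ℝ))) [IsFiniteMeasure ν] : IsFiniteMeasure (ng ν) := by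
  unfold ng
  infer_instance

lemma jneg {ψ ρ : ℂ → ℝ} {u : ℕ → ℂ → ℝ} {G : ℕ → ℂ → (Fin k → ℝ)}
    {ν : Measure (ℝ × (Fin k → ℝ))} (h : JLim ψ ρ u G ν) :
    JLim ψ ρ (fun n z => -u n z) G (ng ν) := by
  obtain ⟨σ, hσ, hF⟩ := h
  refine ⟨σ, hσ, fun F cF bF => ?_⟩
  obtain ⟨M, hM⟩ := bF
  unfold ng
  rw [integral_map ng_me.aemeasurable cF.aestronglyMeasurable]
  exact hF (fun p => F (-p.1, p.2)) (cF.comp (continuous_fst.neg.prodMk continuous_snd))
    ⟨M, fun p => hM _⟩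

lemma ng_slice (ν : Measure (ℝ × (Fin k → ℝ))) {B : Set (Fin k → ℝ)} (mB : MeasurableSet B) :
    slice (ng ν) B = refl (slice ν B) := by
  ext A mA
  have mA' : MeasurableSet {t : ℝ | -t ∈ A} := measurable_neg mA
  rw [slice_ap _ _ mA, refl_ap, slice_ap _ _ mA']
  unfold ng
  rw [Measure.map_apply ng_me ((measurable_fst mA).inter (measurable_snd mB))]
  rfl

/-- smooth approximations of the indicator functions of open sets -/
lemma approx {V : Set (Fin k → ℝ)} (hV : IsOpen V) : ∃ θ : ℕ → (Fin k → ℝ) → ℝ,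
    (∀ j, TestE (θ j)) ∧ (∀ j y, θ j y ≤ 1) ∧
      ∀ y, Tendsto (fun j => θ j y) atTop (𝓝 (V.indicator (fun _ => (1 : ℝ)) y)) := by
  obtain ⟨f, f1, f2, f3⟩ := hV.exists_contDiff_support_eq (n := ⊤)
  have q : ContDiff ℝ ∞ (fun y : Fin k → ℝ => ∑ i, y i ^ 2) :=
    ContDiff.sum fun i _ => (contDiff_apply ℝ ℝ i).pow 2
  have f0 : ∀ y, 0 ≤ f y := fun y => (f3 (Set.mem_range_self y)).1
  refine ⟨fun j y => Real.smoothTransition (j * f y) *
    Real.smoothTransition (j + 1 - ∑ i, y i ^ 2), fun j => ⟨?_, ?_, fun y => ?_⟩, fun j y => ?_,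
    fun y => ?_⟩
  · exact (Real.smoothTransition.contDiff.comp (contDiff_const.mul (f2.of_le (by simp)))).mul
      (Real.smoothTransition.contDiff.comp (contDiff_const.sub q))
  · refine HasCompactSupport.intro (isCompact_closedBall (0 : Fin k → ℝ) ((j : ℝ) + 1))
      fun y hy => ?_
    rw [mem_closedBall_zero_iff, not_le] at hy
    have h1 : ¬ ∀ i, ‖y i‖ ≤ (j : ℝ) + 1 := fun h =>
      absurd ((pi_norm_le_iff_of_nonneg (by positivity)).2 h) (not_le.2 hy)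
    push Not at h1
    obtain ⟨i, hi⟩ := h1
    have h2 : (j : ℝ) + 1 ≤ ∑ i, y i ^ 2 := by
      have h3 : (j : ℝ) + 1 ≤ y i ^ 2 := by
        rw [← sq_abs, ← Real.norm_eq_abs]
        have j0 : (0 : ℝ) ≤ j := Nat.cast_nonneg j
        nlinarith
      exact h3.trans (Finset.single_le_sum (f := fun i => y i ^ 2) (fun i _ => sq_nonneg _)
        (Finset.mem_univ i))
    show Real.smoothTransition (j * f y) * Real.smoothTransition (j + 1 - ∑ i, y i ^ 2) = 0
    rw [Real.smoothTransition.zero_of_nonpos (x := (j : ℝ) + 1 - ∑ i, y i ^ 2) (by linarith),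
      mul_zero]
  · exact mul_nonneg (Real.smoothTransition.nonneg _) (Real.smoothTransition.nonneg _)
  · exact mul_le_one₀ (Real.smoothTransition.le_one _) (Real.smoothTransition.nonneg _)
      (Real.smoothTransition.le_one _)
  · by_cases hy : y ∈ V
    · rw [Set.indicator_of_mem hy]
      have fy : 0 < f y := by
        have : y ∈ Function.support f := by rw [f1]; exact hy
        exact lt_of_le_of_ne (f0 y) (Function.mem_support.1 this).symm
      have c1 : ∀ᶠ j : ℕ in atTop, (1 : ℝ) ≤ j * f y :=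
        ((tendsto_natCast_atTop_atTop (R := ℝ)).atTop_mul_const fy).eventually_ge_atTop 1
      have c2 : ∀ᶠ j : ℕ in atTop, ∑ i, y i ^ 2 ≤ (j : ℝ) :=
        (tendsto_natCast_atTop_atTop (R := ℝ)).eventually_ge_atTop _
      refine tendsto_const_nhds.congr' ?_
      filter_upwards [c1, c2] with j h1 h2
      rw [Real.smoothTransition.one_of_one_le h1, Real.smoothTransition.one_of_one_le (by linarith),
        mul_one]
    · rw [Set.indicator_of_notMem hy]
      have fy : f y = 0 := by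
        by_contra h
        exact hy (by rw [← f1]; exact h)
      simp only [fy, mul_zero, Real.smoothTransition.zero, zero_mul]
      exact tendsto_const_nhds

end

end Pool.Agent.Y139.JL
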