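import Pool.Agent.Y139.JL.D

/-!
Project JL (helper139): the theorem on joint limit laws.
-/

set_option autoImplicit false
open MeasureTheory Filter Topology Complex
open scoped ContDiff ENNReal

namespace Pool.Agent.Y139.JL

open Pool.Agent.W745.RW Pool.Agent.TH294.RS Pool.Agent.TH294.RG Pool.Agent.TH421.DF
open Pool.Agent.TH421.AC Pool.Agent.Results.MP_a52643_an.AbsoluteContinuity
open Pool.Agent.Y139.PD hiding seq_bd S1 S2 halfA halfB mean lim' L1 L2 L3 L4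

noncomputable section

variable {Ω : Set ℂ} {ρ : ℂ → ℝ} {lam : ℕ → ℝ} {u : ℕ → ℂ → ℝ} {k : ℕ}
  {G : ℕ → ℂ → (Fin k → ℝ)} {ψ : ℂ → ℝ}

lemma tw (oΩ : IsOpen Ω) (sG : ∀ n, ContDiffOn ℝ ∞ (G n) Ω) (hψ : Test Ω ψ)
    {θ : (Fin k → ℝ) → ℝ} (hθ : TestE θ) (n : ℕ) : Test Ω (fun z => ψ z * θ (G n z)) := by
  have h := TF.mulc oΩ ⟨hψ.1, hψ.2.1, hψ.2.2.1⟩ (hθ.1.comp_contDiffOn (sG n))
  exact ⟨h.1, h.2.1, h.2.2, fun z => mul_nonneg (hψ.2.2.2 z) (hθ.2.2 _)⟩

lemma wle (H : Hyp Ω ρ lam u) (sG : ∀ n, ContDiffOn ℝ ∞ (G n) Ω) (hψ : Test Ω ψ)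
    {θ : (Fin k → ℝ) → ℝ} (hθ : TestE θ) (θ1 : ∀ y, θ y ≤ 1) (n : ℕ) :
    ∫ z, ψ z * θ (G n z) * (ρ z * u n z ^ 2) ≤ ∫ z, ψ z * (ρ z * u n z ^ 2) := by
  refine integral_mono (int_co H (tw H.oΩ sG hψ hθ n) (continuous_pow 2) n)
    (int_co H hψ (continuous_pow 2) n) fun z => ?_
  show ψ z * θ (G n z) * (ρ z * u n z ^ 2) ≤ ψ z * (ρ z * u n z ^ 2)
  by_cases hz : z ∈ Ω
  · refine mul_le_mul_of_nonneg_right ?_ (mul_nonneg (H.pρ z hz).le (sq_nonneg _))
    have := mul_le_mul_of_nonneg_left (θ1 (G n z)) (hψ.2.2.2 z)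
    linarith
  · rw [image_eq_zero_of_notMem_tsupport fun h => hz (hψ.2.2.1 h)]
    simp

lemma wsl_tend (ν : Measure (ℝ × (Fin k → ℝ))) [IsFiniteMeasure ν] {V : Set (Fin k → ℝ)}
    (hV : IsOpen V) {θ : ℕ → (Fin k → ℝ) → ℝ} (hθ : ∀ j, TestE (θ j)) (θ1 : ∀ j y, θ j y ≤ 1)
    (hl : ∀ y, Tendsto (fun j => θ j y) atTop (𝓝 (V.indicator (fun _ => (1 : ℝ)) y)))
    {A : Set ℝ} (mA : MeasurableSet A) :
    Tendsto (fun j => (wsl ν (θ j) A).toReal) atTop (𝓝 (slice ν V A).toReal) := by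
  have e : (slice ν V A).toReal =
      ∫ p in Prod.fst ⁻¹' A, V.indicator (fun _ => (1 : ℝ)) p.2 ∂ν := by
    have e1 : (fun p : ℝ × (Fin k → ℝ) => V.indicator (fun _ => (1 : ℝ)) p.2) =
        (Prod.snd ⁻¹' V).indicator (fun _ => (1 : ℝ)) := rfl
    have mV : MeasurableSet (Prod.snd ⁻¹' V : Set (ℝ × (Fin k → ℝ))) :=
      measurable_snd hV.measurableSet
    rw [e1, integral_indicator mV, setIntegral_const, smul_eq_mul, mul_one, slice_ap _ _ mA]
    show _ = ((ν.restrict (Prod.fst ⁻¹' A)) (Prod.snd ⁻¹' V)).toReal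
    rw [Measure.restrict_apply mV, Set.inter_comm]
  rw [e]
  simp only [wsl_toReal ν (hθ _) mA]
  refine tendsto_integral_of_dominated_convergence (fun _ => 1)
    (fun j => ((hθ j).1.continuous.comp continuous_snd).aestronglyMeasurable)
    (integrable_const _) (fun j => ae_of_all _ fun p => ?_) (ae_of_all _ fun p => hl p.2)
  rw [Real.norm_eq_abs, abs_of_nonneg ((hθ j).2.2 _)]
  exact θ1 j _

lemma slice_add (ν : Measure (ℝ × (Fin k → ℝ))) {B V : Set (Fin k → ℝ)} (mB : MeasurableSet B)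
    (mV : MeasurableSet V) {A : Set ℝ} (mA : MeasurableSet A) :
    slice ν V A ≤ slice ν B A + ν.map Prod.snd (V \ B) := by
  rw [slice_ap _ _ mA, slice_ap _ _ mA, Measure.map_apply measurable_snd (mV.diff mB)]
  refine (measure_mono ?_).trans (measure_union_le _ _)
  rintro p ⟨h1, h2⟩
  by_cases h : p.2 ∈ B
  · exact Or.inl ⟨h1, h⟩
  · exact Or.inr ⟨h2, h⟩

/-- the inequality for slices over Borel sets -/
theorem sl_ineq (H : Hyp Ω ρ lam u) (sG : ∀ n, ContDiffOn ℝ ∞ (G n) Ω) (hG : Slow Ω lam G)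
    (hψ : Test Ω ψ) {m : ℝ} (m0 : 0 < m)
    (hm : ∀ᶠ n in atTop, ∫ z, ψ z * (ρ z * u n z ^ 2) ≤ m)
    {κ : ℝ → ℝ} {C : ℝ} (C0 : 0 < C)
    (sk : ContDiff ℝ ∞ κ) (k4 : ∀ t, t * κ t ≤ 4) (k2 : ∀ t, |κ t| ≤ 2)
    (k1 : ∀ t, |1 - deriv κ t| ≤ C * |t|) (k3 : ∀ t, |κ t - t * deriv κ t| ≤ C)
    (ν : Measure (ℝ × (Fin k → ℝ))) [IsFiniteMeasure ν] (hν : JLim ψ ρ u G ν) {b : ℝ}
    (b0 : 0 < b) (A : Set ℝ) (hA : A ⊆ Set.Ioo 0 b) {B : Set (Fin k → ℝ)}
    (mB : MeasurableSet B) :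
    (volume A).toReal * (b * (slice ν B (Set.Ici b)).toReal) ^ 3 ≤
      1024 * C ^ 2 * m ^ 2 * (slice ν B A).toReal := by
  obtain ⟨D, hD⟩ : ∃ D : ℝ, D = 1024 * C ^ 2 * m ^ 2 := ⟨_, rfl⟩
  have D0 : 0 < D := by rw [hD]; positivity
  rw [← hD]
  -- open sets
  have open_case : ∀ V : Set (Fin k → ℝ), IsOpen V → ∀ A : Set ℝ, MeasurableSet A →
      A ⊆ Set.Ioo 0 b → (volume A).toReal * (b * (slice ν V (Set.Ici b)).toReal) ^ 3 ≤
        D * (slice ν V A).toReal := by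
    intro V hV A mA hA
    obtain ⟨θ, hθ, θ1, hl⟩ := approx hV
    have t1 := wsl_tend ν hV hθ θ1 hl (measurableSet_Ici (a := b))
    have t2 := wsl_tend ν hV hθ θ1 hl mA
    refine le_of_tendsto_of_tendsto' (((t1.const_mul b).pow 3).const_mul (volume A).toReal)
      (t2.const_mul D) fun j => ?_
    obtain ⟨M0, η, M01, hη, ad⟩ := adm H.oΩ H.ll sG hG hψ (hθ j)
    have := wsl_fin ν (hθ j)
    have q := halfB H hψ.2.1 hψ.2.2.1 M01 hη ad m0 (hm.mono fun n hn =>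
      (wle H sG hψ (hθ j) (θ1 j) n).trans hn) C0 sk k4 k2 k1 k3 (wsl ν (θ j))
      (wsl_lim hν (hθ j)) b0 A hA
    rw [← hD] at q
    exact q
  -- Borel sets, measurable `A`
  have borel : ∀ A : Set ℝ, MeasurableSet A → A ⊆ Set.Ioo 0 b →
      (volume A).toReal * (b * (slice ν B (Set.Ici b)).toReal) ^ 3 ≤
        D * (slice ν B A).toReal := by
    intro A mA hA
    refine le_of_forall_pos_le_add fun e e0 => ?_
    have : IsFiniteMeasure (ν.map (Prod.snd : ℝ × (Fin k → ℝ) → (Fin k → ℝ))) := inferInstance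
    obtain ⟨V, hBV, oV, -, hV⟩ := mB.exists_isOpen_sdiff_lt
      (measure_ne_top (ν.map (Prod.snd : ℝ × (Fin k → ℝ) → (Fin k → ℝ))) B)
      (ENNReal.ofReal_pos.2 (div_pos e0 D0)).ne'
    have h1 := open_case V oV A mA hA
    have h2 := slice_add ν mB oV.measurableSet mA
    have h3 : (slice ν V A).toReal ≤ (slice ν B A).toReal + e / D := by
      have h4 := ENNReal.toReal_mono (by finiteness) (h2.trans (add_le_add_right hV.le _))
      rw [ENNReal.toReal_add (measure_ne_top _ _) ENNReal.ofReal_ne_top,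
        ENNReal.toReal_ofReal (div_pos e0 D0).le] at h4
      exact h4
    have h5 : (slice ν B (Set.Ici b)).toReal ≤ (slice ν V (Set.Ici b)).toReal := by
      refine ENNReal.toReal_mono (measure_ne_top _ _) ?_
      rw [slice_ap _ _ measurableSet_Ici, slice_ap _ _ measurableSet_Ici]
      exact measure_mono (Set.inter_subset_inter_right _ (Set.preimage_mono hBV))
    have h6 : (volume A).toReal * (b * (slice ν B (Set.Ici b)).toReal) ^ 3 ≤
        (volume A).toReal * (b * (slice ν V (Set.Ici b)).toReal) ^ 3 :=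
      mul_le_mul_of_nonneg_left (pow_le_pow_left₀ (mul_nonneg b0.le ENNReal.toReal_nonneg)
        (mul_le_mul_of_nonneg_left h5 b0.le) 3) ENNReal.toReal_nonneg
    have h7 := mul_le_mul_of_nonneg_left h3 D0.le
    have h8 : D * ((slice ν B A).toReal + e / D) = D * (slice ν B A).toReal + e := by
      field_simp
    linarith
  -- all `A`
  obtain ⟨A', hA'⟩ : ∃ A' : Set ℝ, A' = toMeasurable (slice ν B) A ∩ Set.Ioo 0 b := ⟨_, rfl⟩
  have mA' : MeasurableSet A' := by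
    rw [hA']
    exact (measurableSet_toMeasurable _ _).inter measurableSet_Ioo
  have h1 := borel A' mA' (by rw [hA']; exact Set.inter_subset_right)
  have h2 : volume A ≤ volume A' := measure_mono (by
    rw [hA']; exact Set.subset_inter (subset_toMeasurable _ _) hA)
  have h3 : slice ν B A' ≤ slice ν B A := by
    rw [hA', ← measure_toMeasurable (μ := slice ν B) A]
    exact measure_mono Set.inter_subset_left
  have f1 : volume A' ≠ ⊤ := ne_top_of_le_ne_top (by simp)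
    (measure_mono (t := Set.Ioo 0 b) (by rw [hA']; exact Set.inter_subset_right))
  have h4 := ENNReal.toReal_mono f1 h2
  have h5 := ENNReal.toReal_mono (measure_ne_top _ _) h3
  have h6 := mul_le_mul_of_nonneg_right h4
    (pow_nonneg (mul_nonneg b0.le ENNReal.toReal_nonneg) 3 :
      0 ≤ (b * (slice ν B (Set.Ici b)).toReal) ^ 3)
  have h7 := mul_le_mul_of_nonneg_left h5 D0.le
  linarith

/-- the slices have mean zero -/
theorem sl_mean (H : Hyp Ω ρ lam u) (sG : ∀ n, ContDiffOn ℝ ∞ (G n) Ω) (hG : Slow Ω lam G)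
    (hψ : Test Ω ψ) {m : ℝ} (m0 : 0 < m)
    (hm : ∀ᶠ n in atTop, ∫ z, ψ z * (ρ z * u n z ^ 2) ≤ m)
    (ν : Measure (ℝ × (Fin k → ℝ))) [IsFiniteMeasure ν] (hν : JLim ψ ρ u G ν)
    {B : Set (Fin k → ℝ)} (mB : MeasurableSet B) :
    Integrable (fun x => x) (slice ν B) ∧ ∫ x, x ∂(slice ν B) = 0 := by
  obtain ⟨i0, -⟩ := Pool.Agent.Y139.PD.mean H hψ m0 hm (ν.map Prod.fst) (marg hν)
  have le : ∀ B : Set (Fin k → ℝ), slice ν B ≤ ν.map Prod.fst := fun B =>
    Measure.map_mono Measure.restrict_le_self measurable_fst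
  refine ⟨i0.mono_measure (le B), ?_⟩
  have ip : Integrable (fun p : ℝ × (Fin k → ℝ) => p.1) ν :=
    (integrable_map_measure (f := Prod.fst) (g := fun x : ℝ => x)
      continuous_id.aestronglyMeasurable measurable_fst.aemeasurable).1 i0
  have es : ∀ B : Set (Fin k → ℝ), ∫ x, x ∂(slice ν B) = ∫ p in Prod.snd ⁻¹' B, p.1 ∂ν := by
    intro B
    unfold slice
    exact integral_map (f := fun x : ℝ => x) measurable_fst.aemeasurable
      continuous_id.aestronglyMeasurable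
  rw [es]
  -- open sets
  have open_case : ∀ V : Set (Fin k → ℝ), IsOpen V → ∫ p in Prod.snd ⁻¹' V, p.1 ∂ν = 0 := by
    intro V hV
    obtain ⟨θ, hθ, θ1, hl⟩ := approx hV
    have z : ∀ j, ∫ p, p.1 * θ j p.2 ∂ν = 0 := by
      intro j
      obtain ⟨M0, η, M01, hη, ad⟩ := adm H.oΩ H.ll sG hG hψ (hθ j)
      have := wsl_fin ν (hθ j)
      have q := (mean H hψ.2.1 hψ.2.2.1 M01 hη ad m0 (hm.mono fun n hn =>
        (wle H sG hψ (hθ j) (θ1 j) n).trans hn) (wsl ν (θ j)) (wsl_lim hν (hθ j))).2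
      have q2 := wsl_int ν (hθ j).1.continuous (hθ j).2.2 (g := fun x : ℝ => x) continuous_id
      rw [q] at q2
      exact q2.symm
    have mV : MeasurableSet (Prod.snd ⁻¹' V : Set (ℝ × (Fin k → ℝ))) :=
      measurable_snd hV.measurableSet
    have t : Tendsto (fun j => ∫ p, p.1 * θ j p.2 ∂ν) atTop
        (𝓝 (∫ p, p.1 * V.indicator (fun _ => (1 : ℝ)) p.2 ∂ν)) := by
      refine tendsto_integral_of_dominated_convergence (fun p => |p.1|)
        (fun j => (continuous_fst.mul ((hθ j).1.continuous.comp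
          continuous_snd)).aestronglyMeasurable) ip.abs (fun j => ae_of_all _ fun p => ?_)
        (ae_of_all _ fun p => (hl p.2).const_mul p.1)
      rw [Real.norm_eq_abs, abs_mul, abs_of_nonneg ((hθ j).2.2 _)]
      have := mul_le_mul_of_nonneg_left (θ1 j p.2) (abs_nonneg p.1)
      linarith
    simp only [z] at t
    have e0 := tendsto_nhds_unique t tendsto_const_nhds
    rw [← integral_indicator mV]
    rw [← e0]
    refine integral_congr_ae (ae_of_all _ fun p => ?_)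
    show (Prod.snd ⁻¹' V).indicator (fun p : ℝ × (Fin k → ℝ) => p.1) p =
      p.1 * V.indicator (fun _ => (1 : ℝ)) p.2
    by_cases h : p.2 ∈ V
    · rw [Set.indicator_of_mem (show p ∈ Prod.snd ⁻¹' V from h), Set.indicator_of_mem h, mul_one]
    · rw [Set.indicator_of_notMem (show p ∉ Prod.snd ⁻¹' V from h), Set.indicator_of_notMem h,
        mul_zero]
  by_contra hne
  obtain ⟨e, he⟩ : ∃ e : ℝ, e = |∫ p in Prod.snd ⁻¹' B, p.1 ∂ν| := ⟨_, rfl⟩
  have e0 : 0 < e := by rw [he]; exact abs_pos.2 hne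
  obtain ⟨μ3, hμ3⟩ : ∃ μ3 : Measure (Fin k → ℝ),
      μ3 = (ν.withDensity (fun p => ENNReal.ofReal |p.1|)).map Prod.snd := ⟨_, rfl⟩
  have ma : Measurable (fun p : ℝ × (Fin k → ℝ) => ENNReal.ofReal |p.1|) :=
    (continuous_fst.abs.measurable).ennreal_ofReal
  have ap : ∀ U : Set (Fin k → ℝ), MeasurableSet U →
      μ3 U = ENNReal.ofReal (∫ p in Prod.snd ⁻¹' U, |p.1| ∂ν) := by
    intro U mU
    rw [hμ3, Measure.map_apply measurable_snd mU, withDensity_apply _ (measurable_snd mU),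
      ofReal_integral_eq_lintegral_ofReal ip.abs.integrableOn (ae_of_all _ fun p => abs_nonneg _)]
  have f3 : IsFiniteMeasure μ3 := ⟨by rw [ap _ MeasurableSet.univ]; exact ENNReal.ofReal_lt_top⟩
  obtain ⟨V, hBV, oV, -, hV⟩ := mB.exists_isOpen_sdiff_lt (measure_ne_top μ3 B)
    (ENNReal.ofReal_pos.2 e0).ne'
  rw [ap _ (oV.measurableSet.diff mB), ENNReal.ofReal_lt_ofReal_iff e0] at hV
  have mBp : MeasurableSet (Prod.snd ⁻¹' B : Set (ℝ × (Fin k → ℝ))) := measurable_snd mB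
  have un : (Prod.snd ⁻¹' V : Set (ℝ × (Fin k → ℝ))) =
      Prod.snd ⁻¹' B ∪ Prod.snd ⁻¹' (V \ B) := by
    ext p
    constructor
    · intro h
      by_cases hb : p.2 ∈ B
      · exact Or.inl hb
      · exact Or.inr ⟨h, hb⟩
    · rintro (h | h)
      · exact hBV h
      · exact h.1
  have dj : Disjoint (Prod.snd ⁻¹' B : Set (ℝ × (Fin k → ℝ))) (Prod.snd ⁻¹' (V \ B)) := by
    rw [Set.disjoint_left]
    rintro p h1 ⟨-, h2⟩
    exact h2 h1
  have s := open_case V oV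
  rw [un, setIntegral_union dj (measurable_snd (oV.measurableSet.diff mB)) ip.integrableOn
    ip.integrableOn] at s
  have s2 : |∫ p in Prod.snd ⁻¹' (V \ B), p.1 ∂ν| ≤ ∫ p in Prod.snd ⁻¹' (V \ B), |p.1| ∂ν :=
    abs_integral_le_integral_abs
  have s3 : ∫ p in Prod.snd ⁻¹' B, p.1 ∂ν = -∫ p in Prod.snd ⁻¹' (V \ B), p.1 ∂ν := by linarith
  rw [s3, abs_neg] at he
  linarith

/-- the slices are absolutely continuous off zero -/
theorem sl_ac (H : Hyp Ω ρ lam u) (hψ : Test Ω ψ)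
    (ν : Measure (ℝ × (Fin k → ℝ))) [IsFiniteMeasure ν] (hν : JLim ψ ρ u G ν)
    (B : Set (Fin k → ℝ)) : (slice ν B).restrict {0}ᶜ ≪ volume := by
  obtain ⟨C2, hC2⟩ := Pool.Agent.Results.MP_a52643_an.AbsoluteContinuity.result Ω ρ lam u H.oΩ
    H.sρ H.pρ H.ll H.su H.eq H.bd ψ hψ
  have ac := (hC2 (ν.map Prod.fst) inferInstance (marg hν)).2
  have le : slice ν B ≤ ν.map Prod.fst := Measure.map_mono Measure.restrict_le_self measurable_fst
  exact (Measure.absolutelyContinuous_of_le (Measure.restrict_mono subset_rfl le)).trans ac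

end

end Pool.Agent.Y139.JL
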