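import Pool.Agent.Y139.JL.E

/-!
Project JL (helper139): the theorem on joint limit laws, both signs.
-/

set_option autoImplicit false
open MeasureTheory Filter Topology Complex
open scoped ContDiff ENNReal

namespace Pool.Agent.Y139.JL

open Pool.Agent.W745.RW Pool.Agent.TH294.RS Pool.Agent.TH294.RG Pool.Agent.TH421.DF
open Pool.Agent.TH421.AC Pool.Agent.Results.MP_a52643_an.AbsoluteContinuity
open Pool.Agent.Y139.PD hiding seq_bd S1 S2 halfA halfB mean lim' L1 L2 L3 L4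

noncomputable section

variable {k : ℕ}

lemma wsl_ng (ν : Measure (ℝ × (Fin k → ℝ))) {θ : (Fin k → ℝ) → ℝ} (cθ : Continuous θ) :
    wsl (ng ν) θ = refl (wsl ν θ) := by
  ext A mA
  have mA' : MeasurableSet {t : ℝ | -t ∈ A} := measurable_neg mA
  rw [wsl_ap _ mA, refl_ap, wsl_ap _ mA']
  unfold ng
  have m1 : Measurable (fun p : ℝ × (Fin k → ℝ) => ENNReal.ofReal (θ p.2)) :=
    (cθ.measurable.comp measurable_snd).ennreal_ofReal
  rw [setLIntegral_map (measurable_fst mA) m1 ng_me]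
  rfl

/-- **Joint laws of a solution and a slowly varying map.** -/
theorem jmain : ∃ C : ℝ, ∀ (Ω : Set ℂ) (ρ : ℂ → ℝ) (lam : ℕ → ℝ) (u : ℕ → ℂ → ℝ) (k : ℕ)
    (G : ℕ → ℂ → (Fin k → ℝ)) (ψ : ℂ → ℝ), Hyp Ω ρ lam u → (∀ n, ContDiffOn ℝ ∞ (G n) Ω) →
    Slow Ω lam G → Test Ω ψ →
      (∀ θ : (Fin k → ℝ) → ℝ, TestE θ →
        Tendsto (fun n => ∫ z, ψ z * θ (G n z) * (ρ z * u n z)) atTop (𝓝 0) ∧
        ∀ m : ℝ, 0 < m → (∀ᶠ n in atTop, ∫ z, ψ z * θ (G n z) * (ρ z * u n z ^ 2) ≤ m) →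
          (∀ ε : ℝ, 0 < ε → ∀ᶠ n in atTop, ∀ (b : ℝ) (A : Set ℝ), MeasurableSet A →
            A ⊆ Set.uIoo 0 b →
            ε ≤ |b| * law Ω (fun z => ψ z * θ (G n z)) ρ (u n) (Bey b) →
            (volume A).toReal * (|b| * law Ω (fun z => ψ z * θ (G n z)) ρ (u n) (Bey b)) ^ 3 ≤
              C * m ^ 2 * law Ω (fun z => ψ z * θ (G n z)) ρ (u n) A) ∧
          ∀ ν : Measure (ℝ × (Fin k → ℝ)), IsFiniteMeasure ν → JLim ψ ρ u G ν →
            ∀ (b : ℝ) (A : Set ℝ), A ⊆ Set.uIoo 0 b →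
              (volume A).toReal * (|b| * (wsl ν θ (Bey b)).toReal) ^ 3 ≤
                C * m ^ 2 * (wsl ν θ A).toReal) ∧
      ∀ m : ℝ, 0 < m → (∀ᶠ n in atTop, ∫ z, ψ z * (ρ z * u n z ^ 2) ≤ m) →
        ∀ ν : Measure (ℝ × (Fin k → ℝ)), IsFiniteMeasure ν → JLim ψ ρ u G ν →
          ∀ B : Set (Fin k → ℝ), MeasurableSet B →
            (Integrable (fun x => x) (slice ν B) ∧ ∫ x, x ∂(slice ν B) = 0) ∧
            (∀ (b : ℝ) (A : Set ℝ), A ⊆ Set.uIoo 0 b →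
              (volume A).toReal * (|b| * (slice ν B (Bey b)).toReal) ^ 3 ≤
                C * m ^ 2 * (slice ν B A).toReal) ∧
            (slice ν B {0}ᶜ = 0 ∨ ∃ J : Set ℝ, IsOpen J ∧ J.OrdConnected ∧ (0 : ℝ) ∈ J ∧
              (slice ν B).restrict {0}ᶜ ≪ volume.restrict J ∧
              volume.restrict J ≪ (slice ν B).restrict {0}ᶜ) := by
  obtain ⟨κ, C, C0, sk, k4, k2, k1, k3⟩ := Pool.Agent.Y139.PD.exists_cut
  refine ⟨1024 * C ^ 2, ?_⟩
  intro Ω ρ lam u k G ψ H sG hG hψ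
  have H' := H.neg
  have uo : ∀ {b : ℝ}, 0 < b → Set.uIoo 0 b = Set.Ioo 0 b := fun hb => Set.uIoo_of_lt hb
  have un : ∀ {b : ℝ}, b < 0 → Set.uIoo 0 b = Set.Ioo b 0 := fun hb => Set.uIoo_of_gt hb
  have sw : ∀ {b : ℝ} {A : Set ℝ}, A ⊆ Set.Ioo b 0 → {t | -t ∈ A} ⊆ Set.Ioo 0 (-b) := by
    intro b A hA t ht
    have := hA ht
    exact ⟨by linarith [this.2], by linarith [this.1]⟩
  have nn : ∀ A : Set ℝ, {t : ℝ | -t ∈ {t | -t ∈ A}} = A := by
    intro A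
    ext t
    show - -t ∈ A ↔ t ∈ A
    rw [neg_neg]
  -- two-sided form of the inequality for a measure
  have two : ∀ (μ : Measure ℝ) (D : ℝ), 0 ≤ D →
      (∀ b : ℝ, 0 < b → ∀ A, A ⊆ Set.Ioo 0 b →
        (volume A).toReal * (b * (μ (Set.Ici b)).toReal) ^ 3 ≤ D * (μ A).toReal) →
      (∀ b : ℝ, 0 < b → ∀ A, A ⊆ Set.Ioo 0 b →
        (volume A).toReal * (b * (refl μ (Set.Ici b)).toReal) ^ 3 ≤ D * (refl μ A).toReal) →
      ∀ (b : ℝ) (A : Set ℝ), A ⊆ Set.uIoo 0 b →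
        (volume A).toReal * (|b| * (μ (Bey b)).toReal) ^ 3 ≤ D * (μ A).toReal := by
    intro μ D D0 hp hn b A hA
    rcases lt_trichotomy b 0 with h | h | h
    · rw [Bey_neg h, abs_of_neg h]
      rw [un h] at hA
      have q := hn (-b) (by linarith) {t | -t ∈ A} (sw hA)
      rw [refl_Ici, neg_neg, vol_neg, refl_ap, nn] at q
      exact q
    · rw [h, abs_zero, zero_mul]
      have : 0 ≤ D * (μ A).toReal := mul_nonneg D0 ENNReal.toReal_nonneg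
      simpa using this
    · rw [Bey_pos h, abs_of_pos h]
      rw [uo h] at hA
      exact hp b h A hA
  refine ⟨fun θ hθ => ?_, fun m m0 hm ν hν hlim B mB => ?_⟩
  · obtain ⟨M0, η, M01, hη, ad⟩ := adm H.oΩ H.ll sG hG hψ hθ
    refine ⟨S2 H hψ.2.1 hψ.2.2.1 M01 hη ad, fun m m0 hm => ?_⟩
    have hm' : ∀ᶠ n in atTop, ∫ z, (fun n z => ψ z * θ (G n z)) n z *
        (ρ z * (fun n z => -u n z) n z ^ 2) ≤ m :=
      hm.mono fun n hn => by simpa only [neg_sq] using hn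
    refine ⟨fun ε ε0 => ?_, fun ν hν hlim => ?_⟩
    · filter_upwards [halfA H hψ.2.1 hψ.2.2.1 M01 hη ad m0 hm C0 sk k4 k2 k1 k3 ε0,
        halfA H' hψ.2.1 hψ.2.2.1 M01 hη ad m0 hm' C0 sk k4 k2 k1 k3 ε0] with n p1 p2 b A mA hA hb
      obtain ⟨φ, hφ⟩ : ∃ φ : ℂ → ℝ, φ = fun z => ψ z * θ (G n z) := ⟨_, rfl⟩
      simp only [← hφ] at p1 p2 hb ⊢
      rcases lt_trichotomy b 0 with h | h | h
      · rw [Bey_neg h, abs_of_neg h] at hb ⊢
        rw [un h] at hA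
        have e1 : law Ω φ ρ (fun z => -u n z) (Set.Ici (-b)) = law Ω φ ρ (u n) (Set.Iic b) := by
          unfold law
          have : {z | z ∈ Ω ∧ -u n z ∈ Set.Ici (-b)} = {z | z ∈ Ω ∧ u n z ∈ Set.Iic b} := by
            ext z
            show (z ∈ Ω ∧ -b ≤ -u n z) ↔ (z ∈ Ω ∧ u n z ≤ b)
            rw [neg_le_neg_iff]
          rw [this]
        have e2 : law Ω φ ρ (fun z => -u n z) {t | -t ∈ A} = law Ω φ ρ (u n) A := by
          unfold law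
          have : {z | z ∈ Ω ∧ -u n z ∈ {t | -t ∈ A}} = {z | z ∈ Ω ∧ u n z ∈ A} := by
            ext z
            show (z ∈ Ω ∧ - -u n z ∈ A) ↔ (z ∈ Ω ∧ u n z ∈ A)
            rw [neg_neg]
          rw [this]
        have q := p2 (-b) (by linarith) (by rw [e1]; exact hb) {t | -t ∈ A} (measurable_neg mA)
          (sw hA)
        rw [e1, e2, vol_neg] at q
        exact q
      · rw [h, abs_zero, zero_mul] at hb
        linarith
      · rw [Bey_pos h, abs_of_pos h] at hb ⊢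
        rw [uo h] at hA
        exact p1 b h hb A mA hA
    · have f1 := wsl_fin ν hθ
      have f2 := wsl_fin (ng ν) hθ
      refine two (wsl ν θ) _ (by positivity) (fun b b0 A hA => ?_) (fun b b0 A hA => ?_)
      · exact halfB H hψ.2.1 hψ.2.2.1 M01 hη ad m0 hm C0 sk k4 k2 k1 k3 (wsl ν θ)
          (wsl_lim hlim hθ) b0 A hA
      · rw [← wsl_ng ν hθ.1.continuous]
        exact halfB H' hψ.2.1 hψ.2.2.1 M01 hη ad m0 hm' C0 sk k4 k2 k1 k3 (wsl (ng ν) θ)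
          (wsl_lim (jneg hlim) hθ) b0 A hA
  · have hm' : ∀ᶠ n in atTop, ∫ z, ψ z * (ρ z * (fun n z => -u n z) n z ^ 2) ≤ m :=
      hm.mono fun n hn => by simpa only [neg_sq] using hn
    have posi := fun (b : ℝ) (b0 : 0 < b) (A : Set ℝ) (hA : A ⊆ Set.Ioo 0 b) =>
      sl_ineq H sG hG hψ m0 hm C0 sk k4 k2 k1 k3 ν hlim b0 A hA mB
    have nega := fun (b : ℝ) (b0 : 0 < b) (A : Set ℝ) (hA : A ⊆ Set.Ioo 0 b) =>
      sl_ineq H' sG hG hψ m0 hm' C0 sk k4 k2 k1 k3 (ng ν) (jneg hlim) b0 A hA mB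
    simp only [ng_slice ν mB] at nega
    obtain ⟨i1, i0⟩ := sl_mean H sG hG hψ m0 hm ν hlim mB
    exact ⟨⟨i1, i0⟩, two (slice ν B) _ (by positivity) posi nega,
      shape (sl_ac H hψ ν hlim B) i1 i0 posi nega⟩

end

end Pool.Agent.Y139.JL
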